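import Pool.Agent.helper26.UP.UPC
import Pool.Agent.helper84.G4.SpecW
import Pool.Agent.helper84.G4.G4FW
import Pool.Agent.helper16.GR3.GL3F

/-!
# Project up: (MP_af9036_an, MP_70a088_an): the postcritical set is uniformly perfect, dimension gap

Paper: /team-store/MP_af9036_UP_helper26.md.
-/

set_option autoImplicit false

open Complex Metric Set Filter Topology MeasureTheory
open Pool.Agent.helper16.Multibrot

noncomputable section

namespace UP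

open GR (Z)

/-- the choice of `K₀`. -/
theorem FIN_K0 (K : ℝ) (hK : 1 ≤ K) : 1 ≤ (16 * K) ^ 2 ∧
    K * 1 * (1 + Real.log ((16 * K) ^ 2)) / (16 * K) ^ 2 ≤ 1 / 2 ∧
    0 ≤ K * 1 * (1 + Real.log ((16 * K) ^ 2)) / (16 * K) ^ 2 := by
  have h1 : Real.log ((16 * K) ^ 2) ≤ 32 * K := by
    rw [Real.log_pow]
    have := Real.log_le_sub_one_of_pos (show (0 : ℝ) < 16 * K by positivity)
    push_cast
    linarith
  have h2 : (1 : ℝ) ≤ (16 * K) ^ 2 := by nlinarith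
  refine ⟨h2, ?_, ?_⟩
  · rw [div_le_iff₀ (by positivity)]
    nlinarith
  · have h3 := Real.log_nonneg h2
    positivity

/-- an infinite set of closest returns and a multiplicative bound. -/
theorem FIN_prod (n : ℕ) (c : ℂ) (K d M : ℝ) (hK : 1 ≤ K) (hinf : ¬ (CR n c ((16 * K) ^ 2)).Finite)
    (h : ∀ (P : Finset ℕ) (x : ℕ → ℝ),
      (∀ p ∈ P, 2 ≤ p ∧ 1 ≤ x p ∧ ∀ j, 1 ≤ j → j < p → x p * ‖Z n c p‖ ≤ ‖Z n c j‖) →
      d ≤ M * ∏ p ∈ P, (K * 1 * (1 + Real.log (x p)) / x p)) (hM : 0 ≤ M) : d ≤ 0 := by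
  obtain ⟨h1, h2, h3⟩ := FIN_K0 K hK
  have hinf2 : (CR n c ((16 * K) ^ 2) \ {1}).Infinite := by
    intro hfin
    exact hinf ((hfin.union (Set.finite_singleton 1)).subset (by
      intro x hx
      by_cases hx1 : x = 1
      · exact Or.inr hx1
      · exact Or.inl ⟨hx, hx1⟩))
  have hN : ∀ N : ℕ, d ≤ M * (1 / 2) ^ N := by
    intro N
    obtain ⟨P, hP, hPc⟩ := hinf2.exists_subset_card_eq N
    have h4 := h P (fun _ => (16 * K) ^ 2) (by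
      intro p hp
      obtain ⟨⟨hp1, hp2⟩, hp3⟩ := hP hp
      have hp3' : p ≠ 1 := hp3
      exact ⟨by omega, h1, hp2⟩)
    refine h4.trans ?_
    apply mul_le_mul_of_nonneg_left _ hM
    rw [Finset.prod_const, hPc]
    exact pow_le_pow_left₀ h3 h2 N
  have hlim : Tendsto (fun N : ℕ => M * (1 / 2 : ℝ) ^ N) atTop (𝓝 0) := by
    have h5 := (tendsto_pow_atTop_nhds_zero_of_lt_one (show (0 : ℝ) ≤ 1 / 2 by norm_num)
      (by norm_num)).const_mul M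
    rw [mul_zero] at h5
    exact h5
  exact ge_of_tendsto' hlim hN

/-- parameters: finitely many closest returns with large ratio. -/
theorem FIN_par (hG : GR.G4W (fun _ _ _ => 1) 3) : ∃ K₀ : ℝ, 1 ≤ K₀ ∧ ∀ n : ℕ, 3 ≤ n →
    ∀ c ∈ multibrot n, c ∉ closure (hyperbolic n) → (CR n c K₀).Finite := by
  obtain ⟨K, hK, h⟩ := hG
  refine ⟨(16 * K) ^ 2, (FIN_K0 K hK).1, ?_⟩
  intro n hn c hc hcl
  by_contra hinf
  have h1 := FIN_prod n c K (Metric.infDist c (hyperbolic n)) 4000 hK hinf (h n hn c hc) (by norm_num)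
  apply hcl
  rw [Metric.mem_closure_iff_infDist_zero ⟨0, GR.G4FW_zero n (by omega)⟩]
  exact le_antisymm h1 Metric.infDist_nonneg

/-- line fields: finitely many closest returns with large ratio. -/
theorem FIN_lf (hG : GR.GL4W (fun _ _ _ => 1) 3) : ∃ K₀ : ℝ, 1 ≤ K₀ ∧ ∀ n : ℕ, 3 ≤ n →
    ∀ (c : ℂ) (μ : ℂ → ℂ), Pool.Agent.helper98.ILF.IsInvariantLineField (fun z : ℂ => z ^ n + c) μ →
      ∫ z : ℂ, μ z / (z - c) ≠ 0 → (CR n c K₀).Finite := by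
  obtain ⟨K, hK, h⟩ := hG
  refine ⟨(16 * K) ^ 2, (FIN_K0 K hK).1, ?_⟩
  intro n hn c μ hμ hne
  by_contra hinf
  have h1 := FIN_prod n c K ‖∫ z : ℂ, μ z / (z - c)‖ K hK hinf (h n hn c μ hμ) (by linarith)
  exact hne (norm_le_zero_iff.1 h1)

/-- UPC as a statement. -/
def UPC_stmt : Prop := ∃ C : ℝ, 1 ≤ C ∧ ∀ (n : ℕ) (c : ℂ) (K₀ : ℝ), 2 ≤ n → (∀ j, 1 ≤ j → Z n c j ≠ 0) →
      (0 : ℂ) ∈ closure (Orb n c) → 1 ≤ K₀ → (CR n c K₀).Finite →
      ∃ s₀ > (0 : ℝ), UPerf (closure (Orb n c)) (C * K₀ ^ n) s₀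

theorem FIN_mono (P : Set ℂ) (K K' s₀ : ℝ) (hKK : K ≤ K') (h : UPerf P K s₀) : UPerf P K' s₀ := by
  intro x hx s hs hss
  obtain ⟨y, hy, h1, h2⟩ := h x hx s hs hss
  exact ⟨y, hy, h1, h2.trans_le (mul_le_mul_of_nonneg_right hKK hs.le)⟩

/-- the conclusion. -/
def Concl (K κ : ℝ) (n : ℕ) (c : ℂ) : Prop :=
  (∃ s₀ > (0 : ℝ), UPerf (closure (Orb n c)) (K ^ n) s₀) ∧
    ENNReal.ofReal (κ / n) ≤ dimH (closure (Orb n c))

theorem FIN_concl (hU : UPC_stmt) (K₀ : ℝ) (hK₀ : 1 ≤ K₀) : ∃ K κ : ℝ, 1 < K ∧ 0 < κ ∧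
    ∀ (n : ℕ) (c : ℂ), 2 ≤ n → (∀ j, 1 ≤ j → Z n c j ≠ 0) → (0 : ℂ) ∈ closure (Orb n c) →
      (CR n c K₀).Finite → Concl K κ n c := by
  obtain ⟨C, hC, h⟩ := hU
  set K : ℝ := 2 * C * K₀ with hK
  have hK2 : 2 ≤ K := by nlinarith
  have hlog8 : 0 < Real.log (8 * K) := Real.log_pos (by linarith)
  have hlog2 : 0 < Real.log 2 := Real.log_pos (by norm_num)
  refine ⟨K, Real.log 2 / Real.log (8 * K), by linarith, by positivity, ?_⟩
  intro n c hn h0 hrec hfin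
  obtain ⟨s₀, hs₀, hu⟩ := h n c K₀ hn h0 hrec hK₀ hfin
  have h1 : C * K₀ ^ n ≤ K ^ n := by
    rw [hK, mul_pow]
    apply mul_le_mul_of_nonneg_right _ (by positivity)
    have h2 : (2 * C) ^ 1 ≤ (2 * C) ^ n := pow_le_pow_right₀ (by linarith) (by omega)
    rw [pow_one] at h2
    linarith
  have hu2 := FIN_mono _ _ _ _ h1 hu
  refine ⟨⟨s₀, hs₀, hu2⟩, ?_⟩
  have hKn : 1 < K ^ n := one_lt_pow₀ (by linarith) (by omega)
  have h3 := DIM (closure (Orb n c)) (K ^ n) s₀ hKn hs₀ isClosed_closure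
    ⟨_, subset_closure ⟨0, rfl⟩⟩ hu2
  refine le_trans (ENNReal.ofReal_le_ofReal ?_) h3
  have hn0 : (0 : ℝ) < n := by
    have : 0 < n := by omega
    exact_mod_cast this
  have h4 : Real.log (8 * K ^ n) ≤ n * Real.log (8 * K) := by
    rw [← Real.log_pow]
    apply Real.log_le_log (by positivity)
    rw [mul_pow 8 K n]
    apply mul_le_mul_of_nonneg_right _ (by positivity)
    have h2 : (8 : ℝ) ^ 1 ≤ 8 ^ n := pow_le_pow_right₀ (by norm_num) (by omega)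
    linarith
  have h5 : 0 < Real.log (8 * K ^ n) := Real.log_pos (by linarith)
  rw [div_div]
  apply div_le_div_of_nonneg_left hlog2.le h5
  linarith

/-- UPD: parameters. -/
theorem UPD (hU : UPC_stmt) (hG : GR.G4W (fun _ _ _ => 1) 3) (hMIS : GR.MIS_stmt) :
    ∃ K κ : ℝ, 1 < K ∧ 0 < κ ∧ ∀ n : ℕ, 3 ≤ n → ∀ c ∈ multibrot n, c ∉ closure (hyperbolic n) →
      (0 : ℂ) ∈ closure (Orb n c) → Concl K κ n c := by
  obtain ⟨K₀, hK₀, hfin⟩ := FIN_par hG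
  obtain ⟨K, κ, hK, hκ, h⟩ := FIN_concl hU K₀ hK₀
  refine ⟨K, κ, hK, hκ, ?_⟩
  intro n hn c hc hcl hrec
  refine h n c (by omega) ?_ hrec (hfin n hn c hc hcl)
  have hne : (hyperbolic n).Nonempty := ⟨0, GR.G4FW_zero n (by omega)⟩
  have hr : 0 < Metric.infDist c (hyperbolic n) := by
    rcases (Metric.infDist_nonneg (x := c) (s := hyperbolic n)).eq_or_lt with h1 | h1
    · exact absurd ((Metric.mem_closure_iff_infDist_zero hne).2 h1.symm) hcl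
    · exact h1
  intro j hj hj0
  exact hMIS n c _ (by omega) disjoint_ball_infDist c (mem_ball_self hr) 0 j (by omega) hj0.symm

/-- UPL: line fields. -/
theorem UPL (hU : UPC_stmt) (hG : GR.GL4W (fun _ _ _ => 1) 3) (hNZ : NLF.NZ_stmt) (hLFI : NLF.LFI_stmt) :
    ∃ K κ : ℝ, 1 < K ∧ 0 < κ ∧ ∀ n : ℕ, 3 ≤ n → ∀ (c : ℂ) (μ : ℂ → ℂ),
      Pool.Agent.helper98.ILF.IsInvariantLineField (fun z : ℂ => z ^ n + c) μ →
      (0 : ℂ) ∈ closure (Orb n c) → Concl K κ n c := by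
  obtain ⟨K₀, hK₀, hfin⟩ := FIN_lf hG
  obtain ⟨K, κ, hK, hκ, h⟩ := FIN_concl hU K₀ hK₀
  refine ⟨K, κ, hK, hκ, ?_⟩
  intro n hn c μ hμ hrec
  obtain ⟨-, hLF, hpos, hnA⟩ := hLFI n c μ (by omega) hμ
  exact h n c (by omega) (GR.GL3F_ne0 n c (by omega) hnA) hrec
    (hfin n hn c μ hμ (hNZ n c μ (by omega) hLF hpos))

end UP
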