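import Pool.Agent.helper26.UP.Brn
import Pool.Agent.helper73.EX.NULm

/-!
# Project up: (MP_af9036_an): non-recurrent critical points, part 3: area zero
-/

set_option autoImplicit false

open Complex Metric Set Filter Topology MeasureTheory

noncomputable section

namespace UP

open GR (Z)
open Pool.Agent.helper98.ILF (filled)

theorem Lam_closed (n : ℕ) (c : ℂ) (ε : ℝ) : IsClosed (Lam n c ε) := by
  have : Lam n c ε = filled n c ∩ ⋂ k : ℕ, {x | ε ≤ ‖(ff n c)^[k] x‖} := by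
    ext x
    simp [Lam]
  rw [this]
  apply (Pool.Agent.helper98.ILF.isClosed_filled n c).inter
  apply isClosed_iInter
  intro k
  exact isClosed_le continuous_const (ffi_differentiable n c k).continuous.norm

/-- the orbits which stay away from `0`. -/
theorem LamZero (hKO0 : V3.KO0_stmt) (hKO1 : V3.KO1_stmt) (hKO3 : V3.KO3_stmt) (n : ℕ) (c : ℂ) (hn : 2 ≤ n)
    (hint : interior (filled n c) = ∅) (ε : ℝ) (hε : 0 < ε) (hε1 : ε ≤ 1) (hc : c ∈ Lam n c ε) :
    volume (Lam n c ε) = 0 := by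
  by_contra hne
  have hSm : MeasurableSet (Lam n c ε) := (Lam_closed n c ε).measurableSet
  have hcomp : IsCompact (Lam n c ε) := (Pool.Agent.helper98.ILF.isCompact_filled n c).of_isClosed_subset
    (Lam_closed n c ε) (fun x hx => hx.1)
  have hrne : (volume.restrict (Lam n c ε)) ≠ 0 := by
    rw [Ne, Measure.restrict_eq_zero]; exact hne
  have : NeBot (ae (volume.restrict (Lam n c ε))) := ae_neBot.2 hrne
  obtain ⟨z, hz1, hz2⟩ := ((Besicovitch.ae_tendsto_measure_inter_div volume (Lam n c ε)).and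
    (ae_restrict_mem hSm)).exists
  obtain ⟨δ, hδ, hδ1, hB⟩ := BRA hKO1 hKO3 n c hn hint ε hε hε1 hc
  have hint2 : interior (Lam n c ε) = ∅ := by
    rw [← subset_empty_iff, ← hint]
    exact interior_mono (fun x hx => hx.1)
  obtain ⟨ε₀, hε₀, hden⟩ := Pool.Agent.helper98.ILF.density_of_compact hcomp hint2 (δ / 2) (by positivity)
  obtain ⟨C₁, hC₁, hK1⟩ := hKO1
  refine Den0 hKO0 hKO3 (Lam n c ε) hSm z hz1 δ ε₀ hδ hε₀ ?_
  intro β hβ
  obtain ⟨m₀, hm₀⟩ := Blow n c hn hint (β * δ / C₁) (by positivity)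
  obtain ⟨G, hG1, hG2, hG3⟩ := hB m₀ z hz2
  refine ⟨(ff n c)^[m₀] z, G, hG1, ?_, hG2, ?_, ?_, hden _ (Lam_iter n c hn ε z hz2 m₀)⟩
  · intro a ha b hb hab
    have h1 := hG3 a ha
    rw [hab, hG3 b hb] at h1
    exact h1.symm
  · intro y hy hyS
    have h1 := Lam_iter n c hn ε _ hyS m₀
    rw [hG3 y hy] at h1
    exact h1
  · have h1 := Blow_der C₁ hC₁ hK1 n c (β * δ / C₁) m₀ z hz2.1 δ hδ hδ1 (hm₀ m₀ le_rfl z hz2.1) G hG1 hG2 hG3
    have h2 : C₁ * (β * δ / C₁) = δ * β := by field_simp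
    rw [h2] at h1
    exact le_of_mul_le_mul_left h1 hδ

/-- the points which come close to `0` infinitely often. -/
def Eset (n : ℕ) (c : ℂ) (ε : ℝ) : Set ℂ := {x | x ∈ filled n c ∧ ∀ k, ∃ j, k ≤ j ∧ ‖(ff n c)^[j] x‖ < ε}

theorem Eset_iter (n : ℕ) (c : ℂ) (hn : 2 ≤ n) (ε : ℝ) (x : ℂ) (hx : x ∈ Eset n c ε) (m : ℕ) :
    (ff n c)^[m] x ∈ Eset n c ε := by
  refine ⟨fil_iter n c hn x hx.1 m, fun k => ?_⟩
  obtain ⟨j, hj, hj2⟩ := hx.2 (k + m)
  refine ⟨j - m, by omega, ?_⟩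
  rw [← Function.iterate_add_apply, Nat.sub_add_cancel (by omega)]
  exact hj2

theorem Eset_meas (n : ℕ) (c : ℂ) (ε : ℝ) : MeasurableSet (Eset n c ε) := by
  have : Eset n c ε = filled n c ∩ ⋂ k : ℕ, ⋃ j : ℕ, ⋃ _ : k ≤ j, {x | ‖(ff n c)^[j] x‖ < ε} := by
    ext x
    simp [Eset]
  rw [this]
  apply (Pool.Agent.helper98.ILF.isClosed_filled n c).measurableSet.inter
  apply MeasurableSet.iInter
  intro k
  apply MeasurableSet.iUnion
  intro j
  apply MeasurableSet.iUnion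
  intro _
  exact (isOpen_lt (ffi_differentiable n c j).continuous.norm continuous_const).measurableSet

theorem EsetZero (hKO0 : V3.KO0_stmt) (hKO1 : V3.KO1_stmt) (hKO3 : V3.KO3_stmt) (n : ℕ) (c : ℂ) (hn : 2 ≤ n)
    (hint : interior (filled n c) = ∅) (ε : ℝ) (hε : 0 < ε) (hε1 : ε ≤ 1)
    (hZ : ∀ j, 1 ≤ j → 2 * ε ≤ ‖Z n c j‖) : volume (Eset n c ε) = 0 := by
  by_contra hne
  have hSm : MeasurableSet (Eset n c ε) := Eset_meas n c ε
  have hrne : (volume.restrict (Eset n c ε)) ≠ 0 := by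
    rw [Ne, Measure.restrict_eq_zero]; exact hne
  have : NeBot (ae (volume.restrict (Eset n c ε))) := ae_neBot.2 hrne
  obtain ⟨z, hz1, hz2⟩ := ((Besicovitch.ae_tendsto_measure_inter_div volume (Eset n c ε)).and
    (ae_restrict_mem hSm)).exists
  obtain ⟨ε₀, hε₀, hden⟩ := Pool.Agent.helper98.ILF.density_of_compact
    (Pool.Agent.helper98.ILF.isCompact_filled n c) hint (ε / 2) (by positivity)
  obtain ⟨C₁, hC₁, hK1⟩ := id hKO1
  refine Den0 hKO0 hKO3 (Eset n c ε) hSm z hz1 ε ε₀ hε hε₀ ?_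
  intro β hβ
  obtain ⟨m₀, hm₀⟩ := Blow n c hn hint (β * ε / C₁) (by positivity)
  obtain ⟨j, hj, hjε⟩ := hz2.2 m₀
  have hlift := Pool.Agent.helper98.ILF.liftMap_pow (n := n) (by omega) c
  obtain ⟨G, hG⟩ := Pool.Agent.helper98.ILF.exists_branch hlift hε j (fun m => (ff n c)^[j - m] z)
    (Pool.Agent.helper98.ILF.backward_orbit (ff n c) z j) (by
      intro i _ hi
      have h1 : (ff n c)^[i] c ∈ ball ((ff n c)^[j - 0] z) ε := hi
      rw [Nat.sub_zero, iter_c n c hn, mem_ball, dist_eq_norm] at h1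
      have h2 := hZ (i + 1) (by omega)
      have h3 : ‖Z n c (i + 1)‖ ≤ ‖Z n c (i + 1) - (ff n c)^[j] z‖ + ‖(ff n c)^[j] z‖ := norm_le_norm_sub_add _ _
      linarith)
  have hG1 : DifferentiableOn ℂ (G j) (ball ((ff n c)^[j] z) ε) := hG.diff j le_rfl
  have hG2 : G j ((ff n c)^[j] z) = z := by
    have h1 := hG.center j le_rfl
    simp only [Nat.sub_self, Nat.sub_zero, Function.iterate_zero, id] at h1
    exact h1
  have hG3 : ∀ y ∈ ball ((ff n c)^[j] z) ε, (ff n c)^[j] (G j y) = y := fun y hy => hG.iterate le_rfl hy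
  refine ⟨(ff n c)^[j] z, G j, hG1, ?_, hG2, ?_, ?_, ?_⟩
  · intro a ha b hb hab
    have h1 := hG3 a ha
    rw [hab, hG3 b hb] at h1
    exact h1.symm
  · intro y hy hyS
    have h1 := Eset_iter n c hn ε _ hyS j
    rw [hG3 y hy] at h1
    exact h1
  · have h1 := Blow_der C₁ hC₁ hK1 n c (β * ε / C₁) j z hz2.1 ε hε hε1 (hm₀ j hj z hz2.1) (G j) hG1 hG2 hG3
    have h2 : C₁ * (β * ε / C₁) = ε * β := by field_simp
    rw [h2] at h1
    exact le_of_mul_le_mul_left h1 hε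
  · refine (hden _ (fil_iter n c hn z hz2.1 j)).trans (measure_mono ?_)
    exact sdiff_subset_sdiff_right (fun x hx => hx.1)

/-- preimages of null sets. -/
theorem Pre_null (n : ℕ) (c : ℂ) (hn : 2 ≤ n) (N : Set ℂ) (hN : volume N = 0) (k : ℕ) :
    volume {z | (ff n c)^[k] z ∈ N} = 0 := by
  induction k with
  | zero => exact hN
  | succ k ih =>
    have h1 := EX.NUL (ff n c) {z | z ≠ 0} {z | (ff n c)^[k] z ∈ N} isOpen_ne
      (ff_differentiable n c).differentiableOn (by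
        intro z hz
        rw [deriv_ff]
        have h2 : (n : ℂ) ≠ 0 := by
          have : n ≠ 0 := by omega
          exact_mod_cast this
        exact mul_ne_zero h2 (pow_ne_zero _ hz)) ih
    have h2 : {z | (ff n c)^[k + 1] z ∈ N} ⊆ {z | z ∈ {z : ℂ | z ≠ 0} ∧ ff n c z ∈ {z | (ff n c)^[k] z ∈ N}} ∪ {0} := by
      intro z hz
      by_cases hz0 : z = 0
      · exact Or.inr hz0
      · left
        refine ⟨hz0, ?_⟩
        have h3 : (ff n c)^[k + 1] z ∈ N := hz
        rw [Function.iterate_succ_apply] at h3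
        exact h3
    exact measure_mono_null h2 (measure_union_null h1 (by simp))

/-- NR0: a non-recurrent critical point and empty interior imply area zero. -/
theorem NR0 (hKO0 : V3.KO0_stmt) (hKO1 : V3.KO1_stmt) (hKO3 : V3.KO3_stmt) (n : ℕ) (c : ℂ) (hn : 2 ≤ n)
    (hint : interior (filled n c) = ∅) (hcf : c ∈ filled n c) (h0 : (0 : ℂ) ∉ closure (Orb n c)) :
    volume (filled n c) = 0 := by
  rw [Metric.mem_closure_iff] at h0
  push Not at h0
  obtain ⟨r, hr, hr2⟩ := h0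
  have hZ : ∀ j, 1 ≤ j → r ≤ ‖Z n c j‖ := by
    intro j hj
    have h1 := hr2 (Z n c j) ⟨j - 1, by show Z n c (j - 1 + 1) = _; rw [Nat.sub_add_cancel hj]⟩
    rwa [dist_zero_left] at h1
  set ε : ℝ := min 1 (r / 2) with hε
  have hε0 : 0 < ε := by positivity
  have hε1 : ε ≤ 1 := min_le_left _ _
  have hε2 : ε ≤ r / 2 := min_le_right _ _
  have hc : c ∈ Lam n c ε := by
    refine ⟨hcf, fun k => ?_⟩
    rw [iter_c n c hn]
    have := hZ (k + 1) (by omega)
    linarith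
  have h1 := LamZero hKO0 hKO1 hKO3 n c hn hint ε hε0 hε1 hc
  have h2 := EsetZero hKO0 hKO1 hKO3 n c hn hint ε hε0 hε1 (fun j hj => by
    have := hZ j hj
    linarith)
  have h3 : filled n c ⊆ Eset n c ε ∪ ⋃ k : ℕ, {z | (ff n c)^[k] z ∈ Lam n c ε} := by
    intro x hx
    by_cases h : ∀ k, ∃ j, k ≤ j ∧ ‖(ff n c)^[j] x‖ < ε
    · exact Or.inl ⟨hx, h⟩
    · right
      push Not at h
      obtain ⟨k, hk⟩ := h
      rw [mem_iUnion]
      refine ⟨k, fil_iter n c hn x hx k, fun j => ?_⟩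
      rw [← Function.iterate_add_apply]
      exact hk (j + k) (by omega)
  exact measure_mono_null h3 (measure_union_null h2 (measure_iUnion_null (fun k => Pre_null n c hn _ h1 k)))

end UP
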