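import Pool.Agent.helper84.G4.All
import Pool.Agent.helper26.UP.Fin
import Pool.Agent.helper26.UP.NRec
import Pool.Agent.helper93.EX.LIF
import Pool.Agent.helper45.BR.Cor

/-!
# Project up: (MP_af9036_an, MP_70a088_an): the closed theorems
-/

set_option autoImplicit false

open Complex Metric Set Filter Topology MeasureTheory
open Pool.Agent.helper16.Multibrot

noncomputable section

namespace UP

open GR (Z)
open Pool.Agent.helper98.ILF (filled)

theorem LIFT_a : LIFT_stmt := fun n c Φ y k => EX.LIF n c Φ y k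

theorem UPC_a : UPC_stmt := UPC LIFT_a G4A.KO0_a G4A.KO1_a G4A.KO3_a

/-- the critical point is recurrent for every parameter of the connectedness locus which is not a limit of hyperbolic parameters. -/
theorem NRP (n : ℕ) (c : ℂ) (hn : 2 ≤ n) (hc : c ∈ multibrot n) (hcl : c ∉ closure (hyperbolic n)) :
    (0 : ℂ) ∈ closure (Orb n c) := by
  by_contra h0
  apply hcl
  obtain ⟨r, hr, hd⟩ := BR.exists_ball hcl
  obtain ⟨-, hint, hJ, -⟩ := BR.bridge n c r hn hr hc hd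
  apply BR.mem_closure_of_area_zero hn hc
  rw [hJ]
  apply NR0 G4A.KO0_a G4A.KO1_a G4A.KO3_a n c hn hint ?_ h0
  intro k
  have h1 := G4A.BDM_a n c hn hc (k + 1)
  have h2 : (fun z : ℂ => z ^ n + c)^[k] c = Z n c (k + 1) := iter_c n c hn k
  rw [h2]
  have := norm_nonneg c
  linarith

/-- DG: the dimension gap. -/
theorem DG : ∃ K κ : ℝ, 1 < K ∧ 0 < κ ∧ ∀ n : ℕ, 3 ≤ n → ∀ c ∈ multibrot n, c ∉ closure (hyperbolic n) →
    Concl K κ n c := by
  obtain ⟨K, κ, hK, hκ, h⟩ := UPD UPC_a G4A.G4_3 G4A.MIS_a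
  exact ⟨K, κ, hK, hκ, fun n hn c hc hcl => h n hn c hc hcl (NRP n c (by omega) hc hcl)⟩

/-- DGL: the same for line fields. -/
theorem DGL : ∃ K κ : ℝ, 1 < K ∧ 0 < κ ∧ ∀ n : ℕ, 3 ≤ n → ∀ (c : ℂ) (μ : ℂ → ℂ),
    Pool.Agent.helper98.ILF.IsInvariantLineField (fun z : ℂ => z ^ n + c) μ →
    (0 : ℂ) ∈ closure (Orb n c) → Concl K κ n c :=
  UPL UPC_a G4A.GL4_3 NLF.Z_NZ NLF.LFI

end UP
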