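import Pool.Agent.helper26.UP.NINJ
import Pool.Agent.helper98.ILF.Poly

/-!
# Project up: (MP_af9036_an): non-recurrent critical points, part 1: blow-up and density points
-/

set_option autoImplicit false

open Complex Metric Set Filter Topology MeasureTheory

noncomputable section

namespace UP

open GR (Z)
open Pool.Agent.helper98.ILF (filled)

theorem fil_iter (n : ℕ) (c : ℂ) (hn : 2 ≤ n) (x : ℂ) (hx : x ∈ filled n c) (k : ℕ) : (ff n c)^[k] x ∈ filled n c := by
  induction k with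
  | zero => exact hx
  | succ k ih =>
    rw [Function.iterate_succ_apply']
    have h : (ff n c)^[k] x ∈ (fun z : ℂ => z ^ n + c) ⁻¹' filled n c := by
      rw [Pool.Agent.helper98.ILF.preimage_filled hn]
      exact ih
    exact h

theorem fil_bd (n : ℕ) (c : ℂ) (x : ℂ) (hx : x ∈ filled n c) (k : ℕ) : ‖(ff n c)^[k] x‖ ≤ 2 + ‖c‖ := hx k

/-- blow-up: small balls about points of the filled Julia set are mapped far away. -/
theorem Blow (n : ℕ) (c : ℂ) (hn : 2 ≤ n) (hint : interior (filled n c) = ∅) (ρ : ℝ) (hρ : 0 < ρ) :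
    ∃ m₀ : ℕ, ∀ m, m₀ ≤ m → ∀ x ∈ filled n c, ∃ y ∈ ball x ρ, 3 + ‖c‖ < ‖(ff n c)^[m] y‖ := by
  have hx : ∀ z ∈ filled n c, ∃ x ∈ ball z (ρ / 2), x ∉ filled n c := by
    intro z _
    by_contra hcon
    push Not at hcon
    have h1 : ball z (ρ / 2) ⊆ interior (filled n c) := interior_maximal hcon isOpen_ball
    rw [hint] at h1
    exact h1 (mem_ball_self (by positivity))
  choose! x hxb hxK using hx
  have hk : ∀ z ∈ filled n c, ∃ k₀ : ℕ, ∀ k ≥ k₀, 3 + ‖c‖ < ‖(fun z : ℂ => z ^ n + c)^[k] (x z)‖ := fun z hz =>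
    Pool.Agent.helper98.ILF.exists_of_notMem_filled hn (hxK z hz) (3 + ‖c‖)
  choose! κ hκ using hk
  obtain ⟨t, ht, hcov⟩ := (Pool.Agent.helper98.ILF.isCompact_filled n c).elim_nhds_subcover
    (fun z => ball z (ρ / 2)) (fun z _ => ball_mem_nhds z (by positivity))
  refine ⟨t.sup κ, fun k hk z hz => ?_⟩
  have hz' := hcov hz
  simp only [mem_iUnion] at hz'
  obtain ⟨z', hzt, hzz⟩ := hz'
  refine ⟨x z', ?_, hκ z' (ht z' hzt) k ((Finset.le_sup hzt).trans hk)⟩
  have h1 := hxb z' (ht z' hzt)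
  rw [mem_ball] at h1 hzz ⊢
  rw [dist_comm] at hzz
  calc dist (x z') z ≤ dist (x z') z' + dist z' z := dist_triangle _ _ _
    _ < ρ / 2 + ρ / 2 := add_lt_add h1 hzz
    _ = ρ := by ring

/-- the derivative of a long branch is small. -/
theorem Blow_der (C₁ : ℝ) (hC₁ : 1 ≤ C₁)
    (hK1 : ∀ (G : ℂ → ℂ) (a : ℂ) (r : ℝ), 0 < r → DifferentiableOn ℂ G (ball a r) →
      InjOn G (ball a r) → ball (G a) (r * ‖deriv G a‖ / C₁) ⊆ G '' ball a r)
    (n : ℕ) (c : ℂ) (ρ : ℝ) (m : ℕ) (x : ℂ) (hx : x ∈ filled n c) (δ : ℝ) (hδ : 0 < δ) (hδ1 : δ ≤ 1)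
    (hbl : ∃ y ∈ ball x ρ, 3 + ‖c‖ < ‖(ff n c)^[m] y‖) (G : ℂ → ℂ)
    (hG : DifferentiableOn ℂ G (ball ((ff n c)^[m] x) δ)) (hGx : G ((ff n c)^[m] x) = x)
    (hGi : ∀ w ∈ ball ((ff n c)^[m] x) δ, (ff n c)^[m] (G w) = w) :
    δ * ‖deriv G ((ff n c)^[m] x)‖ ≤ C₁ * ρ := by
  by_contra hcon
  push Not at hcon
  obtain ⟨y, hy, hyb⟩ := hbl
  have hinj : InjOn G (ball ((ff n c)^[m] x) δ) := by
    intro w hw w' hw' h
    have h1 := hGi w hw
    rw [h, hGi w' hw'] at h1
    exact h1.symm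
  have h1 := hK1 G _ δ hδ hG hinj
  rw [hGx] at h1
  have h2 : ρ ≤ δ * ‖deriv G ((ff n c)^[m] x)‖ / C₁ := by
    rw [le_div_iff₀ (by positivity)]
    linarith
  obtain ⟨w, hw, hwy⟩ := h1 (ball_subset_ball h2 hy)
  have h3 := hGi w hw
  rw [hwy] at h3
  have h4 : ‖w‖ ≤ ‖w - (ff n c)^[m] x‖ + ‖(ff n c)^[m] x‖ := norm_le_norm_sub_add _ _
  have h5 := fil_bd n c x hx m
  rw [mem_ball, dist_eq_norm] at hw
  rw [h3] at hyb
  linarith

/-- DEN0: not a density point. -/
theorem Den0 (hKO0 : V3.KO0_stmt) (hKO3 : V3.KO3_stmt) (S : Set ℂ) (hSm : MeasurableSet S) (z : ℂ)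
    (hz : Tendsto (fun t => volume (S ∩ closedBall z t) / volume (closedBall z t)) (𝓝[>] (0 : ℝ)) (𝓝 1))
    (δ ε : ℝ) (hδ : 0 < δ) (hε : 0 < ε)
    (h : ∀ β > (0 : ℝ), ∃ (w : ℂ) (G : ℂ → ℂ), DifferentiableOn ℂ G (ball w δ) ∧ InjOn G (ball w δ) ∧ G w = z ∧
      (∀ y ∈ ball w δ, G y ∈ S → y ∈ S) ∧ ‖deriv G w‖ ≤ β ∧ ENNReal.ofReal ε ≤ volume (ball w (δ / 2) \ S)) :
    False := by
  obtain ⟨C, hC, hK3⟩ := hKO3 (1 / 2) (by norm_num) (by norm_num)
  have hkey : ∀ k : ℕ, ∃ t : ℝ, 0 < t ∧ t ≤ C * δ * (1 / ((k : ℝ) + 1)) ∧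
      ENNReal.ofReal (ε * t ^ 2 / (C ^ 4 * δ ^ 2)) ≤ volume (closedBall z t \ S) := by
    intro k
    obtain ⟨w, G, hGd, hGi, hGw, hGS, hGb, hv⟩ := h (1 / ((k : ℝ) + 1)) (by positivity)
    have hb0 : 0 < ‖deriv G w‖ := norm_pos_iff.2 (hKO0 G _ isOpen_ball hGd hGi w (mem_ball_self hδ))
    have hK := (hK3 G w δ hδ hGd hGi).2
    set b := ‖deriv G w‖ with hb
    have hsub : ball w (δ / 2) = ball w ((1 - 1 / 2) * δ) := by congr 1; ring
    refine ⟨C * δ * b, by positivity, by gcongr, ?_⟩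
    set T : Set ℂ := ball w (δ / 2) \ S with hT
    have hTm : MeasurableSet T := measurableSet_ball.diff hSm
    have hTsub : T ⊆ ball w δ := sdiff_subset.trans (ball_subset_ball (by linarith))
    have himg : G '' T ⊆ closedBall z (C * δ * b) \ S := by
      rintro _ ⟨y, ⟨hy1, hy2⟩, rfl⟩
      have hy3 : y ∈ ball w δ := ball_subset_ball (by linarith) hy1
      constructor
      · have h1 := (hK y (hsub ▸ hy1)).2.2.1
        rw [mem_closedBall, dist_eq_norm, ← hGw]
        refine h1.trans ?_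
        rw [mem_ball, dist_eq_norm] at hy3
        gcongr
      · exact fun hS => hy2 (hGS y hy3 hS)
    have hvol := Pool.Agent.helper98.ILF.volume_image_ge (G := G) (T := T) (β := b / C) hTm (by positivity)
      (fun y hy => hGd.differentiableAt (isOpen_ball.mem_nhds (hTsub hy)))
      (hGi.mono hTsub)
      (fun y hy => by
        have := (hK y (hsub ▸ hy.1)).2.1
        rw [div_le_iff₀ (by positivity)]
        linarith)
    calc ENNReal.ofReal (ε * (C * δ * b) ^ 2 / (C ^ 4 * δ ^ 2))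
        = ENNReal.ofReal ((b / C) ^ 2) * ENNReal.ofReal ε := by
          rw [← ENNReal.ofReal_mul (by positivity)]
          congr 1
          field_simp
      _ ≤ ENNReal.ofReal ((b / C) ^ 2) * volume T := by gcongr
      _ ≤ volume (G '' T) := hvol
      _ ≤ volume (closedBall z (C * δ * b) \ S) := measure_mono himg
  choose t ht0 htle htv using hkey
  have htlim : Tendsto t atTop (𝓝[>] 0) := by
    rw [tendsto_nhdsWithin_iff]
    refine ⟨?_, Eventually.of_forall fun k => ht0 k⟩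
    have h1 : Tendsto (fun k : ℕ => C * δ * (1 / ((k : ℝ) + 1))) atTop (𝓝 (C * δ * 0)) :=
      tendsto_one_div_add_atTop_nhds_zero_nat.const_mul (C * δ)
    rw [mul_zero] at h1
    exact squeeze_zero (fun k => (ht0 k).le) htle h1
  have hlim := hz.comp htlim
  set q : ℝ := ε / (C ^ 4 * δ ^ 2 * Real.pi) with hq
  have hpi := Real.pi_pos
  have hq0 : 0 < q := by positivity
  have hprop : ∀ k, volume (S ∩ closedBall z (t k)) / volume (closedBall z (t k)) ≤
      ENNReal.ofReal (1 - q) := by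
    intro k
    have hv : volume (closedBall z (t k)) = ENNReal.ofReal (Real.pi * t k ^ 2) := by
      rw [Complex.volume_closedBall, ← ENNReal.ofReal_pow (ht0 k).le,
        ← ENNReal.ofReal_coe_nnreal, ← ENNReal.ofReal_mul (by have := ht0 k; positivity)]
      congr 1
      simp only [NNReal.coe_real_pi]
      ring
    have hsplit : volume (S ∩ closedBall z (t k)) + volume (closedBall z (t k) \ S) =
        volume (closedBall z (t k)) := by
      rw [inter_comm]; exact measure_inter_add_sdiff _ hSm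
    have hle : ENNReal.ofReal (q * (Real.pi * t k ^ 2)) ≤ volume (closedBall z (t k) \ S) := by
      have : q * (Real.pi * t k ^ 2) = ε * t k ^ 2 / (C ^ 4 * δ ^ 2) := by
        rw [hq]; field_simp
      rw [this]; exact htv k
    have hpos : 0 < Real.pi * t k ^ 2 := by have := ht0 k; positivity
    have h3 : volume (S ∩ closedBall z (t k)) ≤ ENNReal.ofReal ((1 - q) * (Real.pi * t k ^ 2)) := by
      have h4 : volume (S ∩ closedBall z (t k)) + ENNReal.ofReal (q * (Real.pi * t k ^ 2)) ≤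
          ENNReal.ofReal (Real.pi * t k ^ 2) := by
        rw [← hv, ← hsplit]; gcongr
      have h5 : volume (S ∩ closedBall z (t k)) ≤
          ENNReal.ofReal (Real.pi * t k ^ 2) - ENNReal.ofReal (q * (Real.pi * t k ^ 2)) :=
        ENNReal.le_sub_of_add_le_right ENNReal.ofReal_ne_top h4
      rw [← ENNReal.ofReal_sub _ (by positivity)] at h5
      calc _ ≤ _ := h5
        _ = _ := by congr 1; ring
    rw [hv]
    apply ENNReal.div_le_of_le_mul
    calc volume (S ∩ closedBall z (t k)) ≤ ENNReal.ofReal ((1 - q) * (Real.pi * t k ^ 2)) := h3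
      _ = ENNReal.ofReal (1 - q) * ENNReal.ofReal (Real.pi * t k ^ 2) := by
          rw [ENNReal.ofReal_mul' hpos.le]
  have h1 : (1 : ENNReal) ≤ ENNReal.ofReal (1 - q) :=
    le_of_tendsto' hlim hprop
  have h2 : ENNReal.ofReal (1 - q) < 1 := by
    rw [← ENNReal.ofReal_one]
    exact (ENNReal.ofReal_lt_ofReal_iff one_pos).2 (by linarith)
  exact absurd h1 (not_le.2 h2)

end UP
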