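import Pool.Agent.helper26.UP.Blow

/-!
# Project up: (MP_af9036_an): non-recurrent critical points, part 2: univalent pull-backs along orbits away from `0`
-/

set_option autoImplicit false

open Complex Metric Set Filter Topology MeasureTheory

noncomputable section

namespace UP

open GR (Z)
open Pool.Agent.helper98.ILF (filled)

/-- a branch of the inverse of `f^m` on the ball of radius `δ` about `f^m x` with the value `x` at the centre. -/
def Br (n : ℕ) (c : ℂ) (δ : ℝ) (m : ℕ) (x : ℂ) : Prop := ∃ G : ℂ → ℂ,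
  DifferentiableOn ℂ G (ball ((ff n c)^[m] x) δ) ∧ G ((ff n c)^[m] x) = x ∧
    ∀ w ∈ ball ((ff n c)^[m] x) δ, (ff n c)^[m] (G w) = w

/-- the points of the filled Julia set whose orbits stay away from `0`. -/
def Lam (n : ℕ) (c : ℂ) (ε : ℝ) : Set ℂ := {x | x ∈ filled n c ∧ ∀ k, ε ≤ ‖(ff n c)^[k] x‖}

theorem Lam_ff (n : ℕ) (c : ℂ) (hn : 2 ≤ n) (ε : ℝ) (x : ℂ) (hx : x ∈ Lam n c ε) : ff n c x ∈ Lam n c ε := by
  refine ⟨fil_iter n c hn x hx.1 1, fun k => ?_⟩
  rw [← Function.iterate_succ_apply]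
  exact hx.2 (k + 1)

theorem Lam_iter (n : ℕ) (c : ℂ) (hn : 2 ≤ n) (ε : ℝ) (x : ℂ) (hx : x ∈ Lam n c ε) (m : ℕ) :
    (ff n c)^[m] x ∈ Lam n c ε := by
  induction m with
  | zero => exact hx
  | succ m ih =>
    rw [Function.iterate_succ_apply']
    exact Lam_ff n c hn ε _ ih

theorem deriv_ff (n : ℕ) (c z : ℂ) : deriv (ff n c) z = (n : ℂ) * z ^ (n - 1) :=
  ((hasDerivAt_pow n z).add_const c).deriv

/-- lower bound for the derivative. -/
theorem Lam_deriv (n : ℕ) (c : ℂ) (hn : 2 ≤ n) (ε : ℝ) (hε : 0 < ε) (x : ℂ) (hx : x ∈ Lam n c ε) (m : ℕ) :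
    (ε ^ (n - 1)) ^ m ≤ ‖deriv ((ff n c)^[m]) x‖ := by
  induction m with
  | zero => simp
  | succ m ih =>
    have h1 : deriv ((ff n c)^[m + 1]) x = deriv (ff n c) ((ff n c)^[m] x) * deriv ((ff n c)^[m]) x := by
      rw [Function.iterate_succ']
      exact deriv_comp x (ff_differentiable n c _) (ffi_differentiable n c m x)
    rw [h1, norm_mul, deriv_ff, norm_mul, norm_pow, pow_succ, mul_comm]
    have h2 : ε ^ (n - 1) ≤ ‖(ff n c)^[m] x‖ ^ (n - 1) := pow_le_pow_left₀ hε.le (hx.2 m) _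
    have h3 : (1 : ℝ) ≤ ‖(n : ℂ)‖ := by
      rw [Complex.norm_natCast]
      exact_mod_cast (by omega : 1 ≤ n)
    have h4 : ε ^ (n - 1) ≤ ‖(n : ℂ)‖ * ‖(ff n c)^[m] x‖ ^ (n - 1) := by
      calc ε ^ (n - 1) ≤ 1 * ‖(ff n c)^[m] x‖ ^ (n - 1) := by rw [one_mul]; exact h2
        _ ≤ ‖(n : ℂ)‖ * ‖(ff n c)^[m] x‖ ^ (n - 1) := by gcongr
    exact mul_le_mul h4 ih (by positivity) (by positivity)

/-- the derivative of a branch. -/
theorem Br_deriv (n : ℕ) (c : ℂ) (m : ℕ) (δ : ℝ) (hδ : 0 < δ) (x w : ℂ) (G : ℂ → ℂ)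
    (hG : DifferentiableOn ℂ G (ball w δ)) (hGx : G w = x)
    (hGi : ∀ y ∈ ball w δ, (ff n c)^[m] (G y) = y) :
    ‖deriv ((ff n c)^[m]) x‖ * ‖deriv G w‖ = 1 := by
  have h1 : HasDerivAt ((ff n c)^[m]) (deriv ((ff n c)^[m]) x) (G w) := by
    rw [hGx]
    exact (ffi_differentiable n c m x).hasDerivAt
  have h2 : HasDerivAt G (deriv G w) w :=
    ((hG w (mem_ball_self hδ)).differentiableAt (isOpen_ball.mem_nhds (mem_ball_self hδ))).hasDerivAt
  have h3 := h1.comp w h2
  have h4 : HasDerivAt ((ff n c)^[m] ∘ G) 1 w := by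
    apply (hasDerivAt_id w).congr_of_eventuallyEq
    filter_upwards [isOpen_ball.mem_nhds (mem_ball_self (x := w) hδ)] with y hy
    exact hGi y hy
  have h5 := h3.unique h4
  rw [← norm_mul, h5, norm_one]

/-- two branches which agree at a point agree on the intersection of the balls. -/
theorem Br_unique (n : ℕ) (c : ℂ) (m : ℕ) (w y : ℂ) (δ : ℝ) (G G' : ℂ → ℂ) (p : ℂ) (hpw : p ∈ ball w δ)
    (hpy : p ∈ ball y δ) (hG : DifferentiableOn ℂ G (ball w δ)) (hG' : DifferentiableOn ℂ G' (ball y δ))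
    (hGi : ∀ z ∈ ball w δ, (ff n c)^[m] (G z) = z) (hGi' : ∀ z ∈ ball y δ, (ff n c)^[m] (G' z) = z)
    (hp : G p = G' p) : EqOn G G' (ball w δ ∩ ball y δ) := by
  have hopen : IsOpen (ball w δ ∩ ball y δ) := isOpen_ball.inter isOpen_ball
  have h1 : AnalyticOnNhd ℂ G (ball w δ ∩ ball y δ) := fun z hz =>
    (hG.analyticOnNhd isOpen_ball) z hz.1
  have h2 : AnalyticOnNhd ℂ G' (ball w δ ∩ ball y δ) := fun z hz =>
    (hG'.analyticOnNhd isOpen_ball) z hz.2
  apply h1.eqOn_of_preconnected_of_eventuallyEq h2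
    ((convex_ball w δ).inter (convex_ball y δ)).isPreconnected ⟨hpw, hpy⟩
  -- local uniqueness
  set F := (ff n c)^[m] with hF
  have hδ : 0 < δ := pos_of_mem_ball hpw
  have hder : deriv F (G p) ≠ 0 := by
    intro h0
    have h3 : HasDerivAt F (deriv F (G p)) (G p) := (ffi_differentiable n c m _).hasDerivAt
    have h4 : HasDerivAt G (deriv G p) p :=
      ((hG p hpw).differentiableAt (isOpen_ball.mem_nhds hpw)).hasDerivAt
    have h5 := h3.comp p h4
    have h6 : HasDerivAt (F ∘ G) 1 p := by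
      apply (hasDerivAt_id p).congr_of_eventuallyEq
      filter_upwards [isOpen_ball.mem_nhds hpw] with z hz
      exact hGi z hz
    have h7 := h5.unique h6
    rw [h0, zero_mul] at h7
    exact zero_ne_one h7
  have hst : HasStrictDerivAt F (deriv F (G p)) (G p) := by
    apply ((ffi_differentiable n c m).analyticAt (G p)).hasStrictDerivAt
  obtain ⟨s, hs, hinj⟩ : ∃ s ∈ 𝓝 (G p), InjOn F s := by
    have h8 := hst.eventually_left_inverse hder
    refine ⟨_, h8, ?_⟩
    intro a ha b hb hab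
    have ha' := ha
    have hb' := hb
    rw [mem_ofPred_eq] at ha' hb'
    rw [hab] at ha'
    exact ha'.symm.trans hb'
  have hc1 : ContinuousAt G p := ((hG p hpw).differentiableAt (isOpen_ball.mem_nhds hpw)).continuousAt
  have hc2 : ContinuousAt G' p := ((hG' p hpy).differentiableAt (isOpen_ball.mem_nhds hpy)).continuousAt
  have e1 : ∀ᶠ z in 𝓝 p, G z ∈ s := hc1 hs
  have e2 : ∀ᶠ z in 𝓝 p, G' z ∈ s := hc2 (hp ▸ hs)
  filter_upwards [e1, e2, isOpen_ball.mem_nhds hpw, isOpen_ball.mem_nhds hpy] with z h1 h2 h3 h4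
  apply hinj h1 h2
  rw [hGi z h3, hGi' z h4]

/-- a ball in the union of two balls. -/
theorem Br_union (w y : ℂ) (δ : ℝ) (hδ : 0 < δ) (h : ‖y - w‖ < δ) :
    ball ((w + y) / 2) (17 / 20 * δ) ⊆ ball w δ ∪ ball y δ := by
  intro z hz
  rw [mem_ball, dist_eq_norm] at hz
  by_contra hcon
  rw [mem_union, not_or, mem_ball, mem_ball, not_lt, not_lt, dist_eq_norm, dist_eq_norm] at hcon
  obtain ⟨h1, h2⟩ := hcon
  have h3 : ‖z - w‖ * ‖z - w‖ + ‖z - y‖ * ‖z - y‖ =
      2 * (‖z - (w + y) / 2‖ * ‖z - (w + y) / 2‖ + ‖(y - w) / 2‖ * ‖(y - w) / 2‖) := by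
    have h4 := parallelogram_law_with_norm ℝ (z - (w + y) / 2) ((y - w) / 2)
    have h5 : z - (w + y) / 2 + (y - w) / 2 = z - w := by ring
    have h6 : z - (w + y) / 2 - (y - w) / 2 = z - y := by ring
    rw [h5, h6] at h4
    nlinarith [h4]
  have h4 : ‖(y - w) / 2‖ = ‖y - w‖ / 2 := by
    rw [norm_div]
    norm_num
  rw [h4] at h3
  have h5 : δ * δ ≤ ‖z - w‖ * ‖z - w‖ := mul_le_mul h1 h1 hδ.le (norm_nonneg _)
  have h6 : δ * δ ≤ ‖z - y‖ * ‖z - y‖ := mul_le_mul h2 h2 hδ.le (norm_nonneg _)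
  have h7 : ‖z - (w + y) / 2‖ * ‖z - (w + y) / 2‖ ≤ 17 / 20 * δ * (17 / 20 * δ) :=
    mul_le_mul hz.le hz.le (norm_nonneg _) (by positivity)
  have h8 : ‖y - w‖ * ‖y - w‖ ≤ δ * δ := mul_le_mul h.le h.le (norm_nonneg _) hδ.le
  nlinarith

/-- BRA: univalent pull-backs of balls of a fixed radius. -/
theorem BRA (hKO1 : V3.KO1_stmt) (hKO3 : V3.KO3_stmt) (n : ℕ) (c : ℂ) (hn : 2 ≤ n)
    (hint : interior (filled n c) = ∅) (ε : ℝ) (hε : 0 < ε) (hε1 : ε ≤ 1) (hc : c ∈ Lam n c ε) :
    ∃ δ : ℝ, 0 < δ ∧ δ ≤ 1 ∧ ∀ m : ℕ, ∀ x ∈ Lam n c ε, Br n c δ m x := by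
  obtain ⟨C₁, hC₁, hK1⟩ := hKO1
  obtain ⟨C, hC, hK3⟩ := hKO3 (2 / 5) (by norm_num) (by norm_num)
  set ρ : ℝ := ε ^ n / (2 * C ^ 2 * C₁) with hρ
  have hρ0 : 0 < ρ := by positivity
  have hρ2 : C ^ 2 * (C₁ * ρ) < ε ^ n := by
    have : C ^ 2 * (C₁ * ρ) = ε ^ n / 2 := by
      rw [hρ]; field_simp
    rw [this]
    have : 0 < ε ^ n := by positivity
    linarith
  obtain ⟨m₀, hm₀⟩ := Blow n c hn hint ρ hρ0
  set κ : ℝ := (ε ^ (n - 1)) ^ m₀ with hκ
  have hκ0 : 0 < κ := by positivity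
  set δ : ℝ := min 1 (ε ^ n * κ / (2 * C ^ 2)) with hδ
  have hδ0 : 0 < δ := by positivity
  have hδ1 : δ ≤ 1 := min_le_left _ _
  have hδ2 : C ^ 2 * (δ / κ) < ε ^ n := by
    have h1 : δ ≤ ε ^ n * κ / (2 * C ^ 2) := min_le_right _ _
    have h2 : C ^ 2 * (δ / κ) ≤ C ^ 2 * (ε ^ n * κ / (2 * C ^ 2) / κ) := by gcongr
    have h3 : C ^ 2 * (ε ^ n * κ / (2 * C ^ 2) / κ) = ε ^ n / 2 := by field_simp
    have h4 : 0 < ε ^ n := by positivity
    linarith
  refine ⟨δ, hδ0, hδ1, ?_⟩
  intro m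
  induction m with
  | zero =>
    intro x _
    exact ⟨id, differentiableOn_id, rfl, fun w _ => rfl⟩
  | succ m ih =>
    intro x hx
    have hfx := Lam_ff n c hn ε x hx
    obtain ⟨G, hGd, hGx, hGi⟩ := ih (ff n c x) hfx
    have hw : (ff n c)^[m + 1] x = (ff n c)^[m] (ff n c x) := Function.iterate_succ_apply _ _ _
    unfold Br
    rw [hw]
    set w := (ff n c)^[m] (ff n c x) with hwdef
    have hGinj : InjOn G (ball w δ) := by
      intro a ha b hb hab
      have h1 := hGi a ha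
      rw [hab, hGi b hb] at h1
      exact h1.symm
    by_cases hav : ∀ y ∈ ball w δ, G y ≠ c
    · obtain ⟨g, hg1, hg2, hg3⟩ := Pool.Agent.helper98.ILF.exists_lift_pow (n := n) (by omega) (w := w) (u := x)
        (h := fun y => G y - c) hδ0 (hGd.sub_const c) (fun y hy => sub_ne_zero.2 (hav y hy)) (by
          show x ^ n = G w - c
          rw [hGx]
          show x ^ n = x ^ n + c - c
          ring)
      refine ⟨g, hg1, hg2, ?_⟩
      intro y hy
      rw [Function.iterate_succ_apply]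
      have h1 : ff n c (g y) = G y := by
        show g y ^ n + c = G y
        rw [hg3 y hy]
        ring
      rw [h1, hGi y hy]
    · exfalso
      push Not at hav
      obtain ⟨y, hy, hyc⟩ := hav
      have hyf : (ff n c)^[m] c = y := by
        have h1 := hGi y hy
        rw [hyc] at h1
        exact h1
      obtain ⟨G', hG'd, hG'x, hG'i⟩ := ih c hc
      rw [hyf] at hG'd hG'x hG'i
      have heq := Br_unique n c m w y δ G G' y hy (mem_ball_self hδ0) hGd hG'd hGi hG'i (by rw [hyc, hG'x])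
      set H : ℂ → ℂ := fun z => by classical exact if z ∈ ball w δ then G z else G' z with hH
      have hHw : ∀ z ∈ ball w δ, H z = G z := by
        intro z hz
        rw [hH]
        simp only
        rw [if_pos hz]
      have hHy : ∀ z ∈ ball y δ, H z = G' z := by
        intro z hz
        by_cases hzw : z ∈ ball w δ
        · rw [hHw z hzw]
          exact heq ⟨hzw, hz⟩
        · rw [hH]
          simp only
          rw [if_neg hzw]
      have hHd : DifferentiableOn ℂ H (ball w δ ∪ ball y δ) := by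
        intro z hz
        rcases hz with hz | hz
        · have h1 : DifferentiableAt ℂ G z := (hGd z hz).differentiableAt (isOpen_ball.mem_nhds hz)
          apply DifferentiableAt.differentiableWithinAt
          apply h1.congr_of_eventuallyEq
          filter_upwards [isOpen_ball.mem_nhds hz] with a ha using hHw a ha
        · have h1 : DifferentiableAt ℂ G' z := (hG'd z hz).differentiableAt (isOpen_ball.mem_nhds hz)
          apply DifferentiableAt.differentiableWithinAt
          apply h1.congr_of_eventuallyEq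
          filter_upwards [isOpen_ball.mem_nhds hz] with a ha using hHy a ha
      have hHi : ∀ z ∈ ball w δ ∪ ball y δ, (ff n c)^[m] (H z) = z := by
        rintro z (hz | hz)
        · rw [hHw z hz, hGi z hz]
        · rw [hHy z hz, hG'i z hz]
      have hyw : ‖y - w‖ < δ := by
        rw [← dist_eq_norm]
        exact hy
      have hsub := Br_union w y δ hδ0 hyw
      set q := (w + y) / 2 with hq
      set r : ℝ := 17 / 20 * δ with hr
      have hr0 : 0 < r := by positivity
      have hHinj : InjOn H (ball q r) := by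
        intro a ha b hb hab
        have h1 := hHi a (hsub ha)
        rw [hab, hHi b (hsub hb)] at h1
        exact h1.symm
      have hK := (hK3 H q r hr0 (hHd.mono hsub) hHinj).2
      have hwq : ‖w - q‖ = ‖y - w‖ / 2 := by
        have h1 : w - q = -((y - w) / 2) := by rw [hq]; ring
        rw [h1, norm_neg, norm_div]
        norm_num
      have hyq : ‖y - q‖ = ‖y - w‖ / 2 := by
        have h1 : y - q = (y - w) / 2 := by rw [hq]; ring
        rw [h1, norm_div]
        norm_num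
      have hwin : w ∈ ball q ((1 - 2 / 5) * r) := by
        rw [mem_ball, dist_eq_norm, hwq, hr]
        linarith
      have hyin : y ∈ ball q ((1 - 2 / 5) * r) := by
        rw [mem_ball, dist_eq_norm, hyq, hr]
        linarith
      obtain ⟨-, a2, a3, -⟩ := hK w hwin
      obtain ⟨-, -, b3, -⟩ := hK y hyin
      have hdw : deriv H w = deriv G w := by
        apply Filter.EventuallyEq.deriv_eq
        filter_upwards [isOpen_ball.mem_nhds (mem_ball_self (x := w) hδ0)] with a ha using hHw a ha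
      have h1 : ‖H w - H y‖ ≤ C ^ 2 * (δ * ‖deriv G w‖) := by
        calc ‖H w - H y‖ ≤ ‖H w - H q‖ + ‖H q - H y‖ := norm_sub_le_norm_sub_add_norm_sub _ _ _
          _ ≤ C * (δ / 2) * ‖deriv H q‖ + C * (δ / 2) * ‖deriv H q‖ := by
            rw [norm_sub_rev (H q)]
            rw [hwq] at a3
            rw [hyq] at b3
            apply add_le_add
            · refine a3.trans ?_
              gcongr
            · refine b3.trans ?_
              gcongr
          _ = C * δ * ‖deriv H q‖ := by ring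
          _ ≤ C * δ * (C * ‖deriv H w‖) := by gcongr
          _ = C ^ 2 * (δ * ‖deriv G w‖) := by rw [hdw]; ring
      have h2 : H w = x ^ n + c := by
        rw [hHw w (mem_ball_self hδ0), hGx]
        rfl
      have h3 : H y = c := by
        rw [hHw y hy, hyc]
      rw [h2, h3, add_sub_cancel_right, norm_pow] at h1
      have h4 : ε ^ n ≤ ‖x‖ ^ n := pow_le_pow_left₀ hε.le (hx.2 0) n
      have h5 : C ^ 2 * (δ * ‖deriv G w‖) < ε ^ n := by
        rcases Nat.lt_or_ge m m₀ with hm | hm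
        · have h6 := Br_deriv n c m δ hδ0 (ff n c x) w G hGd hGx hGi
          have h7 := Lam_deriv n c hn ε hε (ff n c x) hfx m
          have h8 : κ ≤ ‖deriv ((ff n c)^[m]) (ff n c x)‖ := by
            refine le_trans ?_ h7
            rw [hκ]
            apply pow_le_pow_of_le_one (by positivity) (pow_le_one₀ hε.le hε1) hm.le
          have h9 : ‖deriv G w‖ ≤ 1 / κ := by
            rw [le_div_iff₀ hκ0]
            calc ‖deriv G w‖ * κ ≤ ‖deriv G w‖ * ‖deriv ((ff n c)^[m]) (ff n c x)‖ := by gcongr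
              _ = 1 := by rw [mul_comm]; exact h6
          calc C ^ 2 * (δ * ‖deriv G w‖) ≤ C ^ 2 * (δ * (1 / κ)) := by gcongr
            _ = C ^ 2 * (δ / κ) := by ring
            _ < ε ^ n := hδ2
        · have h6 := Blow_der C₁ hC₁ hK1 n c ρ m (ff n c x) hfx.1 δ hδ0 hδ1 (hm₀ m hm _ hfx.1) G hGd hGx hGi
          calc C ^ 2 * (δ * ‖deriv G w‖) ≤ C ^ 2 * (C₁ * ρ) := by gcongr
            _ < ε ^ n := hρ2
      linarith

end UP
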