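import Mathlib

/-!
# Project up: (MP_af9036_an, MP_70a088_an): a uniformly perfect set has positive Hausdorff dimension

Paper: /team-store/MP_af9036_UP_helper26.md, proof of DIM.
-/

set_option autoImplicit false

open Metric Set Filter Topology MeasureTheory

noncomputable section

namespace UP

/-- uniformly perfect at the scales `≤ s₀`. -/
def UPerf (P : Set ℂ) (K s₀ : ℝ) : Prop :=
  ∀ x ∈ P, ∀ s : ℝ, 0 < s → s ≤ s₀ → ∃ y ∈ P, s < ‖y - x‖ ∧ ‖y - x‖ < K * s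

/-- the radii. -/
def DIM_r (K s₀ : ℝ) (k : ℕ) : ℝ := s₀ * (1 / (8 * K)) ^ k

/-- the points. -/
def DIM_pt (N : ℂ → ℝ → ℂ) (K s₀ : ℝ) (x₀ : ℂ) (w : ℕ → Fin 2) : ℕ → ℂ
  | 0 => x₀
  | k + 1 => if w k = 0 then DIM_pt N K s₀ x₀ w k
      else N (DIM_pt N K s₀ x₀ w k) (DIM_r K s₀ k / (2 * K))

theorem DIM_r_pos (K s₀ : ℝ) (hK : 1 < K) (hs : 0 < s₀) (k : ℕ) : 0 < DIM_r K s₀ k := by
  unfold DIM_r
  have : 0 < K := by linarith
  positivity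

theorem DIM_r_succ (K s₀ : ℝ) (k : ℕ) : DIM_r K s₀ (k + 1) = DIM_r K s₀ k / (8 * K) := by
  unfold DIM_r
  rw [pow_succ]
  ring

theorem DIM_r_le (K s₀ : ℝ) (hK : 1 < K) (hs : 0 < s₀) (k : ℕ) : DIM_r K s₀ k ≤ s₀ := by
  unfold DIM_r
  have h1 : (1 / (8 * K)) ^ k ≤ 1 := by
    apply pow_le_one₀ (by positivity)
    rw [div_le_one (by positivity)]
    linarith
  nlinarith

theorem DIM_s_le (K s₀ : ℝ) (hK : 1 < K) (hs : 0 < s₀) (k : ℕ) :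
    0 < DIM_r K s₀ k / (2 * K) ∧ DIM_r K s₀ k / (2 * K) ≤ s₀ := by
  have h0 := DIM_r_pos K s₀ hK hs k
  have h1 := DIM_r_le K s₀ hK hs k
  refine ⟨by positivity, ?_⟩
  rw [div_le_iff₀ (by positivity)]
  nlinarith

theorem DIM_mem (P : Set ℂ) (N : ℂ → ℝ → ℂ) (K s₀ : ℝ) (x₀ : ℂ) (hK : 1 < K) (hs : 0 < s₀)
    (hx₀ : x₀ ∈ P) (hN : ∀ x ∈ P, ∀ s : ℝ, 0 < s → s ≤ s₀ → N x s ∈ P) (w : ℕ → Fin 2) (k : ℕ) :
    DIM_pt N K s₀ x₀ w k ∈ P := by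
  induction k with
  | zero => exact hx₀
  | succ k ih =>
    show (if w k = 0 then DIM_pt N K s₀ x₀ w k
      else N (DIM_pt N K s₀ x₀ w k) (DIM_r K s₀ k / (2 * K))) ∈ P
    split_ifs
    · exact ih
    · exact hN _ ih _ (DIM_s_le K s₀ hK hs k).1 (DIM_s_le K s₀ hK hs k).2

theorem DIM_step (P : Set ℂ) (N : ℂ → ℝ → ℂ) (K s₀ : ℝ) (x₀ : ℂ) (hK : 1 < K) (hs : 0 < s₀)
    (hx₀ : x₀ ∈ P) (hN : ∀ x ∈ P, ∀ s : ℝ, 0 < s → s ≤ s₀ → N x s ∈ P)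
    (hN2 : ∀ x ∈ P, ∀ s : ℝ, 0 < s → s ≤ s₀ → s < ‖N x s - x‖ ∧ ‖N x s - x‖ < K * s)
    (w : ℕ → Fin 2) (k : ℕ) :
    dist (DIM_pt N K s₀ x₀ w k) (DIM_pt N K s₀ x₀ w (k + 1)) ≤ DIM_r K s₀ k / 2 := by
  have h0 := DIM_r_pos K s₀ hK hs k
  have hm := DIM_mem P N K s₀ x₀ hK hs hx₀ hN w k
  have hK0 : 0 < K := by linarith
  show dist _ (if w k = 0 then DIM_pt N K s₀ x₀ w k
      else N (DIM_pt N K s₀ x₀ w k) (DIM_r K s₀ k / (2 * K))) ≤ _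
  split_ifs
  · rw [dist_self]
    positivity
  · have h1 := (hN2 _ hm _ (DIM_s_le K s₀ hK hs k).1 (DIM_s_le K s₀ hK hs k).2).2
    rw [dist_comm, dist_eq_norm]
    refine h1.le.trans (le_of_eq ?_)
    field_simp

theorem DIM_dist (P : Set ℂ) (N : ℂ → ℝ → ℂ) (K s₀ : ℝ) (x₀ : ℂ) (hK : 1 < K) (hs : 0 < s₀)
    (hx₀ : x₀ ∈ P) (hN : ∀ x ∈ P, ∀ s : ℝ, 0 < s → s ≤ s₀ → N x s ∈ P)
    (hN2 : ∀ x ∈ P, ∀ s : ℝ, 0 < s → s ≤ s₀ → s < ‖N x s - x‖ ∧ ‖N x s - x‖ < K * s)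
    (w : ℕ → Fin 2) (k m : ℕ) :
    dist (DIM_pt N K s₀ x₀ w k) (DIM_pt N K s₀ x₀ w (k + m)) ≤ 4 / 7 * DIM_r K s₀ k := by
  induction m generalizing k with
  | zero =>
    have h0 := DIM_r_pos K s₀ hK hs k
    rw [add_zero, dist_self]
    positivity
  | succ m ih =>
    have h0 := DIM_r_pos K s₀ hK hs k
    have h1 := ih (k + 1)
    have h2 := DIM_step P N K s₀ x₀ hK hs hx₀ hN hN2 w k
    have h3 : DIM_r K s₀ (k + 1) ≤ DIM_r K s₀ k / 8 := by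
      rw [DIM_r_succ, div_le_div_iff₀ (by positivity) (by positivity)]
      nlinarith
    have h4 : k + (m + 1) = k + 1 + m := by ring
    rw [h4]
    calc dist (DIM_pt N K s₀ x₀ w k) (DIM_pt N K s₀ x₀ w (k + 1 + m)) ≤
        dist (DIM_pt N K s₀ x₀ w k) (DIM_pt N K s₀ x₀ w (k + 1)) +
          dist (DIM_pt N K s₀ x₀ w (k + 1)) (DIM_pt N K s₀ x₀ w (k + 1 + m)) := dist_triangle _ _ _
      _ ≤ DIM_r K s₀ k / 2 + 4 / 7 * (DIM_r K s₀ k / 8) := by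
        gcongr
        exact h1.trans (by gcongr)
      _ = 4 / 7 * DIM_r K s₀ k := by ring

theorem DIM_tendsto_r (K s₀ : ℝ) (hK : 1 < K) : Tendsto (DIM_r K s₀) atTop (𝓝 0) := by
  have h1 : Tendsto (fun k : ℕ => (1 / (8 * K)) ^ k) atTop (𝓝 0) := by
    apply tendsto_pow_atTop_nhds_zero_of_lt_one (by positivity)
    rw [div_lt_one (by positivity)]
    linarith
  have h2 := h1.const_mul s₀
  rw [mul_zero] at h2
  exact h2

/-- the limit points. -/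
theorem DIM_lim (P : Set ℂ) (hcl : IsClosed P) (N : ℂ → ℝ → ℂ) (K s₀ : ℝ) (x₀ : ℂ) (hK : 1 < K) (hs : 0 < s₀)
    (hx₀ : x₀ ∈ P) (hN : ∀ x ∈ P, ∀ s : ℝ, 0 < s → s ≤ s₀ → N x s ∈ P)
    (hN2 : ∀ x ∈ P, ∀ s : ℝ, 0 < s → s ≤ s₀ → s < ‖N x s - x‖ ∧ ‖N x s - x‖ < K * s)
    (w : ℕ → Fin 2) :
    ∃ l ∈ P, ∀ k, dist (DIM_pt N K s₀ x₀ w k) l ≤ 4 / 7 * DIM_r K s₀ k := by
  have hd := DIM_dist P N K s₀ x₀ hK hs hx₀ hN hN2 w
  have hc : CauchySeq (DIM_pt N K s₀ x₀ w) := by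
    apply cauchySeq_of_le_tendsto_0 (fun k => 8 / 7 * DIM_r K s₀ k)
    · intro a b k ha hb
      obtain ⟨a', rfl⟩ := Nat.exists_eq_add_of_le ha
      obtain ⟨b', rfl⟩ := Nat.exists_eq_add_of_le hb
      have h1 := hd k a'
      have h2 := hd k b'
      have h3 := dist_triangle_left (DIM_pt N K s₀ x₀ w (k + a')) (DIM_pt N K s₀ x₀ w (k + b'))
        (DIM_pt N K s₀ x₀ w k)
      linarith
    · have h2 := (DIM_tendsto_r K s₀ hK).const_mul (8 / 7)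
      rw [mul_zero] at h2
      exact h2
  obtain ⟨l, hl⟩ := cauchySeq_tendsto_of_complete hc
  refine ⟨l, hcl.mem_of_tendsto hl (Eventually.of_forall
    (DIM_mem P N K s₀ x₀ hK hs hx₀ hN w)), ?_⟩
  intro k
  have h1 : Tendsto (fun m => dist (DIM_pt N K s₀ x₀ w k) (DIM_pt N K s₀ x₀ w (k + m))) atTop
      (𝓝 (dist (DIM_pt N K s₀ x₀ w k) l)) := by
    apply Tendsto.dist tendsto_const_nhds
    have h2 : Tendsto (fun m : ℕ => k + m) atTop atTop := tendsto_add_atTop_nat k |>.congr (fun m => by ring)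
    exact hl.comp h2
  exact le_of_tendsto h1 (Eventually.of_forall (hd k))

theorem DIM_agree (N : ℂ → ℝ → ℂ) (K s₀ : ℝ) (x₀ : ℂ) (w w' : ℕ → Fin 2) (k : ℕ)
    (h : ∀ i < k, w i = w' i) : DIM_pt N K s₀ x₀ w k = DIM_pt N K s₀ x₀ w' k := by
  induction k with
  | zero => rfl
  | succ k ih =>
    have h1 := ih (fun i hi => h i (by omega))
    show (if w k = 0 then DIM_pt N K s₀ x₀ w k
      else N (DIM_pt N K s₀ x₀ w k) (DIM_r K s₀ k / (2 * K))) = (if w' k = 0 then DIM_pt N K s₀ x₀ w' k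
      else N (DIM_pt N K s₀ x₀ w' k) (DIM_r K s₀ k / (2 * K)))
    rw [h k (by omega), h1]

/-- the separation, one order. -/
theorem DIM_sep' (P : Set ℂ) (N : ℂ → ℝ → ℂ) (K s₀ : ℝ) (x₀ : ℂ) (hK : 1 < K) (hs : 0 < s₀)
    (hx₀ : x₀ ∈ P) (hN : ∀ x ∈ P, ∀ s : ℝ, 0 < s → s ≤ s₀ → N x s ∈ P)
    (hN2 : ∀ x ∈ P, ∀ s : ℝ, 0 < s → s ≤ s₀ → s < ‖N x s - x‖ ∧ ‖N x s - x‖ < K * s)
    (w w' : ℕ → Fin 2) (l l' : ℂ) (hl : ∀ k, dist (DIM_pt N K s₀ x₀ w k) l ≤ 4 / 7 * DIM_r K s₀ k)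
    (hl' : ∀ k, dist (DIM_pt N K s₀ x₀ w' k) l' ≤ 4 / 7 * DIM_r K s₀ k) (k : ℕ)
    (h : ∀ i < k, w i = w' i) (hk : w k = 0) (hk' : w' k ≠ 0) :
    DIM_r K s₀ k / (4 * K) ≤ dist l l' := by
  have hK0 : 0 < K := by linarith
  have hr := DIM_r_pos K s₀ hK hs k
  have h1 := DIM_agree N K s₀ x₀ w w' k h
  have h2 : DIM_pt N K s₀ x₀ w (k + 1) = DIM_pt N K s₀ x₀ w k := by
    show (if w k = 0 then DIM_pt N K s₀ x₀ w k
      else N (DIM_pt N K s₀ x₀ w k) (DIM_r K s₀ k / (2 * K))) = _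
    rw [if_pos hk]
  have h3 : DIM_pt N K s₀ x₀ w' (k + 1) = N (DIM_pt N K s₀ x₀ w k) (DIM_r K s₀ k / (2 * K)) := by
    show (if w' k = 0 then DIM_pt N K s₀ x₀ w' k
      else N (DIM_pt N K s₀ x₀ w' k) (DIM_r K s₀ k / (2 * K))) = _
    rw [if_neg hk', h1]
  have hm := DIM_mem P N K s₀ x₀ hK hs hx₀ hN w k
  have h4 := (hN2 _ hm _ (DIM_s_le K s₀ hK hs k).1 (DIM_s_le K s₀ hK hs k).2).1
  have h5 := hl (k + 1)
  have h6 := hl' (k + 1)
  rw [h2] at h5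
  rw [h3] at h6
  have h7 : DIM_r K s₀ (k + 1) = DIM_r K s₀ k / (2 * K) / 4 := by
    rw [DIM_r_succ, div_div]
    ring
  rw [h7] at h5 h6
  rw [← dist_eq_norm, dist_comm] at h4
  set x := DIM_pt N K s₀ x₀ w k
  set s := DIM_r K s₀ k / (2 * K) with hsdef
  have h8 : DIM_r K s₀ k / (4 * K) = s / 2 := by
    rw [hsdef, div_div]
    ring
  rw [h8]
  have hs0 : 0 < s := by positivity
  have h9 : dist x (N x s) ≤ dist x l + dist l l' + dist l' (N x s) := dist_triangle4 _ _ _ _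
  rw [dist_comm l' (N x s)] at h9
  linarith

theorem DIM_sep (P : Set ℂ) (N : ℂ → ℝ → ℂ) (K s₀ : ℝ) (x₀ : ℂ) (hK : 1 < K) (hs : 0 < s₀)
    (hx₀ : x₀ ∈ P) (hN : ∀ x ∈ P, ∀ s : ℝ, 0 < s → s ≤ s₀ → N x s ∈ P)
    (hN2 : ∀ x ∈ P, ∀ s : ℝ, 0 < s → s ≤ s₀ → s < ‖N x s - x‖ ∧ ‖N x s - x‖ < K * s)
    (w w' : ℕ → Fin 2) (l l' : ℂ) (hl : ∀ k, dist (DIM_pt N K s₀ x₀ w k) l ≤ 4 / 7 * DIM_r K s₀ k)
    (hl' : ∀ k, dist (DIM_pt N K s₀ x₀ w' k) l' ≤ 4 / 7 * DIM_r K s₀ k) (hw : w ≠ w') :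
    ∃ k, (∀ i < k, w i = w' i) ∧ DIM_r K s₀ k / (4 * K) ≤ dist l l' := by
  classical
  have hex : ∃ k, w k ≠ w' k := by
    by_contra hcon
    push Not at hcon
    exact hw (funext hcon)
  set k := Nat.find hex with hkdef
  have hk : w k ≠ w' k := Nat.find_spec hex
  have hlt : ∀ i < k, w i = w' i := by
    intro i hi
    by_contra hne
    exact Nat.find_min hex hi hne
  refine ⟨k, hlt, ?_⟩
  by_cases h0 : w k = 0
  · exact DIM_sep' P N K s₀ x₀ hK hs hx₀ hN hN2 w w' l l' hl hl' k hlt h0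
      (fun h => hk (h0.trans h.symm))
  · have h0' : w' k = 0 := by
      have h1 : (w k : ℕ) < 2 := (w k).2
      have h2 : (w' k : ℕ) < 2 := (w' k).2
      have h3 : (w k : ℕ) ≠ 0 := fun h => h0 (Fin.ext h)
      have h4 : (w k : ℕ) ≠ (w' k : ℕ) := fun h => hk (Fin.ext h)
      apply Fin.ext
      show (w' k : ℕ) = 0
      omega
    rw [dist_comm]
    exact DIM_sep' P N K s₀ x₀ hK hs hx₀ hN hN2 w' w l' l hl' hl k (fun i hi => (hlt i hi).symm) h0' h0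

/-- DIM. -/
theorem DIM (P : Set ℂ) (K s₀ : ℝ) (hK : 1 < K) (hs : 0 < s₀) (hcl : IsClosed P) (hne : P.Nonempty)
    (h : UPerf P K s₀) : ENNReal.ofReal (Real.log 2 / Real.log (8 * K)) ≤ dimH P := by
  classical
  have hK0 : 0 < K := by linarith
  obtain ⟨x₀, hx₀⟩ := hne
  have hch : ∀ (x : ℂ) (s : ℝ), ∃ y : ℂ, x ∈ P → 0 < s → s ≤ s₀ → y ∈ P ∧ s < ‖y - x‖ ∧ ‖y - x‖ < K * s := by
    intro x s
    by_cases hc : x ∈ P ∧ 0 < s ∧ s ≤ s₀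
    · obtain ⟨y, hy, h1, h2⟩ := h x hc.1 s hc.2.1 hc.2.2
      exact ⟨y, fun _ _ _ => ⟨hy, h1, h2⟩⟩
    · exact ⟨0, fun a b c => absurd ⟨a, b, c⟩ hc⟩
  choose N hNN using hch
  have hN : ∀ x ∈ P, ∀ s : ℝ, 0 < s → s ≤ s₀ → N x s ∈ P := fun x hx s a b => (hNN x s hx a b).1
  have hN2 : ∀ x ∈ P, ∀ s : ℝ, 0 < s → s ≤ s₀ → s < ‖N x s - x‖ ∧ ‖N x s - x‖ < K * s :=
    fun x hx s a b => (hNN x s hx a b).2
  choose L hL hLd using DIM_lim P hcl N K s₀ x₀ hK hs hx₀ hN hN2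
  have hsep : ∀ w w', w ≠ w' → ∃ k, (∀ i < k, w i = w' i) ∧ DIM_r K s₀ k / (4 * K) ≤ dist (L w) (L w') :=
    fun w w' hw => DIM_sep P N K s₀ x₀ hK hs hx₀ hN hN2 w w' (L w) (L w') (hLd w) (hLd w') hw
  have hLinj : Function.Injective L := by
    intro w w' hww
    by_contra hne
    obtain ⟨k, -, hk⟩ := hsep w w' hne
    rw [hww, dist_self] at hk
    have := DIM_r_pos K s₀ hK hs k
    have h2 : 0 < DIM_r K s₀ k / (4 * K) := by positivity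
    linarith
  set α : ℝ := Real.log 2 / Real.log (8 * K) with hα
  have hlog2 : 0 < Real.log 2 := Real.log_pos (by norm_num)
  have hlogK : 0 < Real.log (8 * K) := Real.log_pos (by linarith)
  have hα0 : 0 < α := div_pos hlog2 hlogK
  have hpow : (1 / (8 * K)) ^ α = 1 / 2 := by
    have h1 : (8 * K) ^ α = 2 := by
      rw [Real.rpow_def_of_pos (by positivity), hα, mul_div_cancel₀ _ hlogK.ne', Real.exp_log (by norm_num)]
    rw [Real.div_rpow (by norm_num) (by positivity), h1, Real.one_rpow]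
  -- the function
  set F : ℂ → ℝ := fun x => Real.ofDigits (Function.invFun L x) with hF
  have hFL : ∀ w, F (L w) = Real.ofDigits w := by
    intro w
    rw [hF]
    show Real.ofDigits (Function.invFun L (L w)) = _
    rw [Function.leftInverse_invFun hLinj w]
  set c₀ : ℝ := s₀ / (4 * K) with hc₀
  have hc₀0 : 0 < c₀ := by positivity
  set C : ℝ := (c₀ ^ α)⁻¹ with hC
  have hC0 : 0 < C := by positivity
  have hdist : ∀ w w', dist (F (L w)) (F (L w')) ≤ C * dist (L w) (L w') ^ α := by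
    intro w w'
    by_cases hww : w = w'
    · rw [hww, dist_self]
      positivity
    obtain ⟨k, hk1, hk2⟩ := hsep w w' hww
    rw [hFL, hFL, Real.dist_eq]
    have h1 := Real.abs_ofDigits_sub_ofDigits_le (b := 2) hk1
    have h2 : DIM_r K s₀ k / (4 * K) = c₀ * (1 / (8 * K)) ^ k := by
      rw [hc₀]
      unfold DIM_r
      ring
    rw [h2] at hk2
    have h3 : (c₀ * (1 / (8 * K)) ^ k) ^ α ≤ dist (L w) (L w') ^ α :=
      Real.rpow_le_rpow (by positivity) hk2 hα0.le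
    have h4 : (c₀ * (1 / (8 * K)) ^ k) ^ α = c₀ ^ α * (1 / 2) ^ k := by
      rw [Real.mul_rpow hc₀0.le (by positivity), ← Real.rpow_natCast, ← Real.rpow_mul (by positivity),
        mul_comm (k : ℝ) α, Real.rpow_mul (by positivity), hpow, Real.rpow_natCast]
    rw [h4] at h3
    calc |Real.ofDigits w - Real.ofDigits w'| ≤ (((2 : ℕ) : ℝ) ^ k)⁻¹ := h1
      _ = C * (c₀ ^ α * (1 / 2) ^ k) := by
        rw [hC, ← mul_assoc, inv_mul_cancel₀ (by positivity), one_mul]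
        push_cast
        rw [one_div, inv_pow]
      _ ≤ C * dist (L w) (L w') ^ α := by gcongr
  have hhold : HolderOnWith C.toNNReal α.toNNReal F (range L) := by
    rintro _ ⟨w, rfl⟩ _ ⟨w', rfl⟩
    have h1 := hdist w w'
    rw [edist_dist, edist_dist, Real.coe_toNNReal _ hα0.le,
      ENNReal.ofReal_rpow_of_nonneg dist_nonneg hα0.le]
    show ENNReal.ofReal (dist (F (L w)) (F (L w'))) ≤ ENNReal.ofReal C * _
    rw [← ENNReal.ofReal_mul hC0.le]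
    exact ENNReal.ofReal_le_ofReal h1
  have himg : Icc (0 : ℝ) 1 ⊆ F '' range L := by
    intro y hy
    obtain ⟨w, -, hw⟩ := Real.ofDigits_SurjOn (b := 2) (by norm_num) hy
    exact ⟨L w, ⟨w, rfl⟩, by rw [hFL, hw]⟩
  have hdim1 : dimH (Icc (0 : ℝ) 1) = 1 := by
    have h1 : (interior (Icc (0 : ℝ) 1)).Nonempty := by
      rw [interior_Icc]
      exact ⟨1 / 2, by norm_num, by norm_num⟩
    rw [Real.dimH_of_nonempty_interior h1, Module.finrank_self, Nat.cast_one]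
  have hα' : 0 < α.toNNReal := by
    rw [Real.toNNReal_pos]
    exact hα0
  have h5 : dimH (F '' range L) ≤ dimH (range L) / (α.toNNReal : ENNReal) := hhold.dimH_image_le hα'
  have h6 : (1 : ENNReal) ≤ dimH (range L) / (α.toNNReal : ENNReal) := by
    rw [← hdim1]
    exact (dimH_mono himg).trans h5
  have h7 : (α.toNNReal : ENNReal) ≤ dimH (range L) := by
    have h8 := (ENNReal.le_div_iff_mul_le (Or.inl (by simpa using hα')) (Or.inl (by simp))).1 h6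
    rwa [one_mul] at h8
  have h8 : range L ⊆ P := by
    rintro _ ⟨w, rfl⟩
    exact hL w
  calc ENNReal.ofReal α = (α.toNNReal : ENNReal) := rfl
    _ ≤ dimH (range L) := h7
    _ ≤ dimH P := dimH_mono h8

end UP
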