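import Pool.Agent.helper88.GR.Spec

/-!
# Project up: (MP_af9036_an, MP_70a088_an): iterates are not injective near a recurrent critical value

Paper: /team-store/MP_af9036_UP_helper26.md.
-/

set_option autoImplicit false

open Complex Metric Set Filter Topology MeasureTheory

noncomputable section

namespace UP

open GR (Z)

/-- the polynomial. -/
def ff (n : ℕ) (c z : ℂ) : ℂ := z ^ n + c

theorem ff_differentiable (n : ℕ) (c : ℂ) : Differentiable ℂ (ff n c) := by
  unfold ff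
  fun_prop

theorem ffi_differentiable (n : ℕ) (c : ℂ) (k : ℕ) : Differentiable ℂ ((ff n c)^[k]) := by
  induction k with
  | zero => exact differentiable_id
  | succ k ih =>
    rw [Function.iterate_succ]
    exact ih.comp (ff_differentiable n c)

theorem Z_eq (n : ℕ) (c : ℂ) (j : ℕ) : Z n c j = (ff n c)^[j] 0 := rfl

theorem Z_one (n : ℕ) (c : ℂ) (hn : 2 ≤ n) : Z n c 1 = c := by
  show (0 : ℂ) ^ n + c = c
  rw [zero_pow (by omega), zero_add]

theorem Z_succ (n : ℕ) (c : ℂ) (j : ℕ) : Z n c (j + 1) = Z n c j ^ n + c := by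
  rw [Z_eq, Function.iterate_succ_apply']
  rfl

theorem iter_Z (n : ℕ) (c : ℂ) (k j : ℕ) : (ff n c)^[k] (Z n c j) = Z n c (k + j) := by
  rw [Z_eq, Z_eq, Function.iterate_add_apply]

theorem iter_c (n : ℕ) (c : ℂ) (hn : 2 ≤ n) (k : ℕ) : (ff n c)^[k] c = Z n c (k + 1) := by
  have h := iter_Z n c k 1
  rw [Z_one n c hn] at h
  exact h

/-- the critical orbit. -/
def Orb (n : ℕ) (c : ℂ) : Set ℂ := range fun j : ℕ => Z n c (j + 1)

theorem NINJ_mono (n : ℕ) (c : ℂ) (s : Set ℂ) (k l : ℕ) (hkl : k ≤ l) (h : InjOn ((ff n c)^[l]) s) :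
    InjOn ((ff n c)^[k]) s := by
  intro x hx y hy hxy
  apply h hx hy
  obtain ⟨m, rfl⟩ := Nat.exists_eq_add_of_le hkl
  rw [add_comm, Function.iterate_add_apply, Function.iterate_add_apply, hxy]

/-- arbitrarily small values at arbitrarily late times. -/
theorem NINJ_rec (n : ℕ) (c : ℂ) (h0 : ∀ j, 1 ≤ j → Z n c j ≠ 0) (hrec : (0 : ℂ) ∈ closure (Orb n c))
    (ε : ℝ) (hε : 0 < ε) (N : ℕ) : ∃ j, N ≤ j ∧ 1 ≤ j ∧ ‖Z n c j‖ < ε := by
  have hex : ∃ δ > (0 : ℝ), ∀ j, 1 ≤ j → j < N → δ ≤ ‖Z n c j‖ := by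
    induction N with
    | zero => exact ⟨1, one_pos, fun j _ h => by omega⟩
    | succ N ih =>
      obtain ⟨δ, hδ, h⟩ := ih
      rcases Nat.eq_zero_or_pos N with hN | hN
      · refine ⟨δ, hδ, fun j h1 h2 => by omega⟩
      · refine ⟨min δ ‖Z n c N‖, lt_min hδ (norm_pos_iff.2 (h0 N hN)), fun j h1 h2 => ?_⟩
        rcases Nat.lt_or_ge j N with h3 | h3
        · exact (min_le_left _ _).trans (h j h1 h3)
        · have h4 : j = N := by omega
          rw [h4]
          exact min_le_right _ _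
  obtain ⟨δ, hδ, h⟩ := hex
  obtain ⟨y, ⟨j, rfl⟩, hy⟩ := Metric.mem_closure_iff.1 hrec (min δ ε) (lt_min hδ hε)
  rw [dist_zero_left] at hy
  refine ⟨j + 1, ?_, by omega, hy.trans_le (min_le_right _ _)⟩
  by_contra hcon
  have h1 := h (j + 1) (by omega) (by omega)
  have h2 := hy.trans_le (min_le_left _ _)
  exact absurd h1 (not_le.2 h2)

theorem NINJ_fix (n : ℕ) (c : ℂ) (hn : 2 ≤ n) (h0 : ∀ j, 1 ≤ j → Z n c j ≠ 0)
    (hrec : (0 : ℂ) ∈ closure (Orb n c)) (m : ℕ) (hm : 1 ≤ m) (a : ℂ) (ha : (ff n c)^[m] a = a)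
    (hlim : Tendsto (fun i => ((ff n c)^[m])^[i] c) atTop (𝓝 a)) : False := by
  -- `0` is on the orbit of `a`
  have h1 : ∃ l < m, (ff n c)^[l] a = 0 := by
    by_contra hcon
    push Not at hcon
    obtain ⟨κ, hκ, hκ2⟩ : ∃ κ > (0 : ℝ), ∀ l < m, κ ≤ ‖(ff n c)^[l] a‖ := by
      have h2 : ∀ M ≤ m, ∃ κ > (0 : ℝ), ∀ l < M, κ ≤ ‖(ff n c)^[l] a‖ := by
        intro M
        induction M with
        | zero => exact fun _ => ⟨1, one_pos, fun j h => by omega⟩
        | succ M ih =>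
          intro hM
          obtain ⟨δ, hδ, h⟩ := ih (by omega)
          refine ⟨min δ ‖(ff n c)^[M] a‖, lt_min hδ (norm_pos_iff.2 (hcon M (by omega))), fun j h2 => ?_⟩
          rcases Nat.lt_or_ge j M with h3 | h3
          · exact (min_le_left _ _).trans (h j h3)
          · have h4 : j = M := by omega
            rw [h4]
            exact min_le_right _ _
      exact h2 m le_rfl
    have h3 : ∀ l < m, ∀ᶠ i in atTop, κ / 2 < ‖(ff n c)^[l] (((ff n c)^[m])^[i] c)‖ := by
      intro l hl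
      have h4 : Tendsto (fun i => ‖(ff n c)^[l] (((ff n c)^[m])^[i] c)‖) atTop (𝓝 ‖(ff n c)^[l] a‖) :=
        (((ffi_differentiable n c l).continuous.tendsto a).comp hlim).norm
      apply h4.eventually_const_lt
      have := hκ2 l hl
      linarith
    have h5 : ∀ᶠ i in atTop, ∀ l ∈ Finset.range m, κ / 2 < ‖(ff n c)^[l] (((ff n c)^[m])^[i] c)‖ := by
      rw [Filter.eventually_all_finset]
      intro l hl
      exact h3 l (Finset.mem_range.1 hl)
    obtain ⟨I, hI⟩ := eventually_atTop.1 h5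
    obtain ⟨j, hj1, hj2, hj3⟩ := NINJ_rec n c h0 hrec (κ / 2) (by positivity) (m * I + 1)
    have h6 := hI ((j - 1) / m) (by
      rw [Nat.le_div_iff_mul_le (by omega)]
      have : I * m = m * I := Nat.mul_comm _ _
      omega) ((j - 1) % m) (Finset.mem_range.2 (Nat.mod_lt _ (by omega)))
    rw [← Function.iterate_mul, ← Function.iterate_add_apply, iter_c n c hn] at h6
    have h7 : (j - 1) % m + m * ((j - 1) / m) + 1 = j := by
      have := Nat.mod_add_div (j - 1) m
      omega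
    rw [h7] at h6
    linarith
  obtain ⟨l, hl, hl0⟩ := h1
  have h2 : (ff n c)^[m] 0 = 0 := by
    rw [← hl0, ← Function.iterate_add_apply, add_comm, Function.iterate_add_apply, ha]
  exact h0 m hm h2

/-- NINJ: the iterates are not injective near the critical value. -/
theorem NINJ (hKO0 : V3.KO0_stmt) (hKO1 : V3.KO1_stmt) (hKO3 : V3.KO3_stmt) (n : ℕ) (c : ℂ) (hn : 2 ≤ n)
    (h0 : ∀ j, 1 ≤ j → Z n c j ≠ 0) (hrec : (0 : ℂ) ∈ closure (Orb n c)) (δ : ℝ) (hδ : 0 < δ) :
    ∃ T : ℕ, ∀ k, T ≤ k → ¬ InjOn ((ff n c)^[k]) (ball c δ) := by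
  by_contra hcon
  push Not at hcon
  have hinj : ∀ k, InjOn ((ff n c)^[k]) (ball c δ) := by
    intro k
    obtain ⟨l, hl, h⟩ := hcon k
    exact NINJ_mono n c _ k l hl h
  obtain ⟨C₁, hC₁, hK1⟩ := hKO1
  obtain ⟨C₃, hC₃, hK3⟩ := hKO3 (1 / 2) (by norm_num) (by norm_num)
  set ε : ℝ := min 1 (min (δ / (4 * (C₁ * C₃ + 1))) (δ / (2 * C₁ * C₃))) with hε
  have hε0 : 0 < ε := by positivity
  have hε1 : ε ≤ 1 := min_le_left _ _
  have hε2 : ε * (4 * (C₁ * C₃ + 1)) ≤ δ := by
    rw [← le_div_iff₀ (by positivity)]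
    exact (min_le_right _ _).trans (min_le_left _ _)
  have hε3 : ε * (2 * C₁ * C₃) ≤ δ := by
    rw [← le_div_iff₀ (by positivity)]
    exact (min_le_right _ _).trans (min_le_right _ _)
  obtain ⟨m, -, hm, hme⟩ := NINJ_rec n c h0 hrec ε hε0 1
  set F : ℂ → ℂ := (ff n c)^[m] with hF
  have hFd : Differentiable ℂ F := ffi_differentiable n c m
  have hFc : F c = Z n c (m + 1) := iter_c n c hn m
  have hZc : ‖F c - c‖ < ε := by
    rw [hFc, Z_succ, add_sub_cancel_right, norm_pow]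
    have h1 : ‖Z n c m‖ ^ n ≤ ‖Z n c m‖ ^ 1 :=
      pow_le_pow_of_le_one (norm_nonneg _) (hme.le.trans hε1) (by omega)
    rw [pow_one] at h1
    linarith
  have hFinj : InjOn F (ball c δ) := hinj m
  -- `c` is not in the image
  have hnc : ∀ y ∈ ball c δ, F y ≠ c := by
    intro y hy hyc
    obtain ⟨k, rfl⟩ : ∃ k, m = k + 1 := ⟨m - 1, by omega⟩
    have h1 : (ff n c) ((ff n c)^[k] y) = c := by
      rw [← Function.iterate_succ_apply' (ff n c) k y]
      exact hyc
    have h2 : ((ff n c)^[k] y) ^ n = 0 := by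
      have h3 : ((ff n c)^[k] y) ^ n + c = c := h1
      simpa using h3
    have h3 : (ff n c)^[k] y = 0 := by
      rw [pow_eq_zero_iff (by omega)] at h2
      exact h2
    have h4 : deriv F y = 0 := by
      have h5 : F = ff n c ∘ (ff n c)^[k] := by
        rw [hF, Function.iterate_succ']
      rw [h5, deriv_comp y (ff_differentiable n c _) (ffi_differentiable n c k _), h3]
      have h6 : deriv (ff n c) 0 = 0 := by
        have h7 : HasDerivAt (ff n c) ((n : ℂ) * 0 ^ (n - 1)) 0 := (hasDerivAt_pow n (0 : ℂ)).add_const c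
        rw [h7.deriv, zero_pow (by omega), mul_zero]
      rw [h6, zero_mul]
    exact hKO0 F (ball c δ) isOpen_ball hFd.differentiableOn hFinj y hy h4
  have hα : δ * ‖deriv F c‖ / C₁ ≤ ‖F c - c‖ := by
    by_contra hlt
    push Not at hlt
    have h1 := hK1 F c δ hδ hFd.differentiableOn hFinj
    have h2 : c ∈ ball (F c) (δ * ‖deriv F c‖ / C₁) := by
      rw [mem_ball, dist_comm, dist_eq_norm]
      exact hlt
    obtain ⟨y, hy, hyc⟩ := h1 h2
    exact hnc y hy hyc
  have hα2 : ‖deriv F c‖ * δ ≤ C₁ * ε := by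
    rw [div_le_iff₀ (by positivity)] at hα
    nlinarith [norm_nonneg (F c - c)]
  have hdis := (hK3 F c δ hδ hFd.differentiableOn hFinj).2
  have hsub : closedBall c (δ / 4) ⊆ ball c ((1 - 1 / 2) * δ) := by
    apply closedBall_subset_ball
    linarith
  have hder : ∀ x ∈ closedBall c (δ / 4), ‖deriv F x‖ ≤ 1 / 2 := by
    intro x hx
    have h1 := (hdis x (hsub hx)).1
    have h2 : C₃ * ‖deriv F c‖ * δ ≤ 1 / 2 * δ := by
      calc C₃ * ‖deriv F c‖ * δ = C₃ * (‖deriv F c‖ * δ) := by ring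
        _ ≤ C₃ * (C₁ * ε) := by gcongr
        _ = 1 / 2 * (ε * (2 * C₁ * C₃)) := by ring
        _ ≤ 1 / 2 * δ := by gcongr
    exact h1.trans (le_of_mul_le_mul_right h2 hδ)
  have hmaps : MapsTo F (closedBall c (δ / 4)) (closedBall c (δ / 4)) := by
    intro x hx
    have h1 := (hdis x (hsub hx)).2.2.1
    rw [mem_closedBall, dist_eq_norm] at hx ⊢
    calc ‖F x - c‖ = ‖(F x - F c) + (F c - c)‖ := by congr 1; ring
      _ ≤ ‖F x - F c‖ + ‖F c - c‖ := norm_add_le _ _
      _ ≤ C₃ * (δ / 4) * ‖deriv F c‖ + ε := by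
        have h2 : C₃ * ‖x - c‖ * ‖deriv F c‖ ≤ C₃ * (δ / 4) * ‖deriv F c‖ := by gcongr
        linarith
      _ = C₃ / 4 * (‖deriv F c‖ * δ) + ε := by ring
      _ ≤ C₃ / 4 * (C₁ * ε) + ε := by gcongr
      _ = ε * (4 * (C₁ * C₃ + 1)) / 16 + 3 / 4 * ε := by ring
      _ ≤ δ / 16 + 3 / 4 * (δ / 4) := by
        have h3 : ε ≤ δ / 4 := by
          have h4 : ε * 4 ≤ ε * (4 * (C₁ * C₃ + 1)) := by
            apply mul_le_mul_of_nonneg_left _ hε0.le
            nlinarith
          linarith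
        linarith
      _ = δ / 4 := by ring
  have hcon2 : ContractingWith (1 / 2 : NNReal) (hmaps.restrict F _ _) := by
    refine ⟨by rw [← NNReal.coe_lt_coe]; norm_num, ?_⟩
    have hL : LipschitzOnWith (1 / 2 : NNReal) F (closedBall c (δ / 4)) := by
      apply (convex_closedBall c (δ / 4)).lipschitzOnWith_of_nnnorm_deriv_le
      · intro x _
        exact hFd x
      · intro x hx
        have := hder x hx
        rw [← NNReal.coe_le_coe]
        simpa using this
    intro x y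
    exact hL x.2 y.2
  obtain ⟨a, ha, hfix, hlim, -⟩ := ContractingWith.exists_fixedPoint' isClosed_closedBall.isComplete hmaps hcon2
    (mem_closedBall_self (by positivity)) (edist_ne_top _ _)
  exact NINJ_fix n c hn h0 hrec m hm a hfix hlim

end UP
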