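import Pool.Agent.helper26.UP.NINJ
import Pool.Agent.helper26.UP.Dim

/-!
# Project up: (MP_af9036_an, MP_70a088_an): bounded ratios of closest returns imply that the postcritical set is uniformly perfect

Paper: /team-store/MP_af9036_UP_helper26.md.
-/

set_option autoImplicit false

open Complex Metric Set Filter Topology MeasureTheory

noncomputable section

namespace UP

open GR (Z)

/-- the lemma LIF of ex: (proved), here as a hypothesis. -/
def LIFT_stmt : Prop := ∀ (n : ℕ) (c : ℂ) (Φ : ℂ → ℂ) (y : ℂ) (k : ℕ), 1 ≤ n →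
  DifferentiableOn ℂ Φ (ball 0 1) → (ff n c)^[k] y = Φ 0 →
  (∃ g : ℂ → ℂ, DifferentiableOn ℂ g (ball 0 1) ∧ g 0 = y ∧
    ∀ z ∈ ball (0 : ℂ) 1, (ff n c)^[k] (g z) = Φ z) ∨
  ∃ j < k, ∃ g : ℂ → ℂ, DifferentiableOn ℂ g (ball 0 1) ∧ g 0 = (ff n c)^[k - j] y ∧
    (∀ z ∈ ball (0 : ℂ) 1, (ff n c)^[j] (g z) = Φ z) ∧ ∃ z₀ ∈ ball (0 : ℂ) 1, g z₀ = c

/-- the inverse branch on a ball about `Z p` which contains no earlier point. -/
theorem UPC_branch (hL : LIFT_stmt) (n : ℕ) (c : ℂ) (hn : 2 ≤ n) (p : ℕ) (hp : 1 ≤ p) (t : ℝ) (ht : 0 < t)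
    (hfar : ∀ j, 1 ≤ j → j < p → t ≤ ‖Z n c j - Z n c p‖) :
    ∃ G : ℂ → ℂ, DifferentiableOn ℂ G (ball (Z n c p) t) ∧ G (Z n c p) = c ∧
      ∀ w ∈ ball (Z n c p) t, (ff n c)^[p - 1] (G w) = w := by
  set a := Z n c p with ha
  set Φ : ℂ → ℂ := fun z => a + (t : ℂ) * z with hΦ
  have hΦd : DifferentiableOn ℂ Φ (ball 0 1) := by
    rw [hΦ]
    fun_prop
  have h0 : (ff n c)^[p - 1] c = Φ 0 := by
    rw [iter_c n c hn, hΦ]
    show Z n c (p - 1 + 1) = a + (t : ℂ) * 0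
    rw [Nat.sub_add_cancel hp, mul_zero, add_zero]
  rcases hL n c Φ c (p - 1) (by omega) hΦd h0 with ⟨g, hg1, hg2, hg3⟩ | ⟨j, hj, g, hg1, hg2, hg3, z₀, hz₀, hgz⟩
  · have htc : (t : ℂ) ≠ 0 := by exact_mod_cast ht.ne'
    have hmaps : ∀ w ∈ ball a t, (w - a) / (t : ℂ) ∈ ball (0 : ℂ) 1 := by
      intro w hw
      rw [mem_ball, dist_eq_norm] at hw
      rw [mem_ball, dist_zero_right, norm_div, Complex.norm_real, Real.norm_of_nonneg ht.le,
        div_lt_one ht]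
      exact hw
    refine ⟨fun w => g ((w - a) / (t : ℂ)), ?_, ?_, ?_⟩
    · apply hg1.comp (by fun_prop) hmaps
    · show g ((a - a) / (t : ℂ)) = c
      rw [sub_self, zero_div, hg2]
    · intro w hw
      rw [hg3 _ (hmaps w hw), hΦ]
      show a + (t : ℂ) * ((w - a) / (t : ℂ)) = w
      field_simp
      ring
  · exfalso
    have h1 := hg3 z₀ hz₀
    rw [hgz, iter_c n c hn, hΦ] at h1
    have h2 := hfar (j + 1) (by omega) (by omega)
    rw [h1] at h2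
    have h3 : a + (t : ℂ) * z₀ - a = (t : ℂ) * z₀ := by ring
    rw [mem_ball, dist_zero_right] at hz₀
    have h4 : ‖(t : ℂ) * z₀‖ < t := by
      rw [norm_mul, Complex.norm_real, Real.norm_of_nonneg ht.le]
      nlinarith
    have h5 : t ≤ ‖a + (t : ℂ) * z₀ - a‖ := h2
    rw [h3] at h5
    linarith

/-- The set of closest returns with ratio at least `K₀` (and the time `1`). -/
def CR (n : ℕ) (c : ℂ) (K₀ : ℝ) : Set ℕ := {p | 1 ≤ p ∧ ∀ j, 1 ≤ j → j < p → K₀ * ‖Z n c p‖ ≤ ‖Z n c j‖}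

/-- a free annulus gives a closest return with large ratio. -/
theorem UPC_step (hL : LIFT_stmt) (C₁ C₃ : ℝ) (hC₁ : 1 ≤ C₁) (hC₃ : 3 ≤ C₃)
    (hK1 : ∀ (G : ℂ → ℂ) (a : ℂ) (r : ℝ), 0 < r → DifferentiableOn ℂ G (ball a r) →
      InjOn G (ball a r) → ball (G a) (r * ‖deriv G a‖ / C₁) ⊆ G '' ball a r)
    (hK3 : ∀ (G : ℂ → ℂ) (a : ℂ) (r : ℝ), 0 < r → DifferentiableOn ℂ G (ball a r) →
      InjOn G (ball a r) → ∀ x ∈ ball a ((1 - 1 / 2) * r), ‖G x - G a‖ ≤ C₃ * ‖x - a‖ * ‖deriv G a‖)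
    (n : ℕ) (c : ℂ) (hn : 2 ≤ n) (h0 : ∀ j, 1 ≤ j → Z n c j ≠ 0) (hrec : (0 : ℂ) ∈ closure (Orb n c))
    (K₀ : ℝ) (hK₀ : 1 ≤ K₀) (x : ℂ) (hx : x ∈ closure (Orb n c)) (s : ℝ) (hs : 0 < s)
    (hann : ∀ y ∈ closure (Orb n c), s < ‖y - x‖ → (1 + 2 * C₁ * C₃ * K₀ ^ n) * s ≤ ‖y - x‖) :
    ∃ p' ∈ CR n c K₀, ∃ p : ℕ, 1 ≤ p ∧ ‖Z n c p'‖ ^ n * (C₁ * ‖GR.A n c p‖) ≤ 2 * C₁ * C₃ * K₀ ^ n * s ∧
      InjOn ((ff n c)^[p - 1]) (ball c (‖Z n c p'‖ ^ n)) := by
  classical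
  have hKn : 1 ≤ K₀ ^ n := one_le_pow₀ hK₀
  set t : ℝ := 2 * C₁ * C₃ * K₀ ^ n * s with ht
  have hCC : 3 ≤ C₁ * C₃ := by nlinarith
  have h6 : 6 * s ≤ t := by
    have : 6 ≤ 2 * C₁ * C₃ * K₀ ^ n := by nlinarith
    rw [ht]
    nlinarith
  have ht0 : 0 < t := by linarith
  have hts : (1 + 2 * C₁ * C₃ * K₀ ^ n) * s = t + s := by rw [ht]; ring
  rw [hts] at hann
  -- the first visit
  have hex : ∃ p, 1 ≤ p ∧ ‖Z n c p - x‖ ≤ s := by
    obtain ⟨y, ⟨j, rfl⟩, hy⟩ := Metric.mem_closure_iff.1 hx s hs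
    refine ⟨j + 1, by omega, ?_⟩
    rw [← dist_eq_norm, dist_comm]
    exact hy.le
  set p := Nat.find hex with hpdef
  obtain ⟨hp1, hps⟩ := Nat.find_spec hex
  rw [← hpdef] at hp1 hps
  have hpmin : ∀ j, 1 ≤ j → j < p → s < ‖Z n c j - x‖ := by
    intro j h1 h2
    have := Nat.find_min hex h2
    push Not at this
    exact this h1
  have horb : ∀ j, 1 ≤ j → Z n c j ∈ closure (Orb n c) := by
    intro j hj
    apply subset_closure
    exact ⟨j - 1, by show Z n c (j - 1 + 1) = _; rw [Nat.sub_add_cancel hj]⟩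
  have hfar : ∀ j, 1 ≤ j → j < p → t ≤ ‖Z n c j - Z n c p‖ := by
    intro j h1 h2
    have h3 := hann _ (horb j h1) (hpmin j h1 h2)
    have h4 : ‖Z n c j - x‖ ≤ ‖Z n c j - Z n c p‖ + ‖Z n c p - x‖ := norm_sub_le_norm_sub_add_norm_sub _ _ _
    linarith
  obtain ⟨G, hGd, hGa, hGinv⟩ := UPC_branch hL n c hn p hp1 t ht0 hfar
  set a := Z n c p with ha
  have hGinj : InjOn G (ball a t) := by
    intro w hw w' hw' h
    have h1 := hGinv w hw
    rw [h, hGinv w' hw'] at h1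
    exact h1.symm
  have hKo1 := hK1 G a t ht0 hGd hGinj
  have hKo3 := hK3 G a t ht0 hGd hGinj
  rw [hGa] at hKo1 hKo3
  set g := ‖deriv G a‖ with hg
  -- the derivative
  have hgA : ‖GR.A n c p‖ * g = 1 := by
    have h1 : HasDerivAt ((ff n c)^[p - 1]) (GR.A n c p) c := by
      have h2 : ∀ k, HasDerivAt ((ff n c)^[k]) (GR.A n c (k + 1)) c := by
        intro k
        induction k with
        | zero =>
          have h3 : GR.A n c (0 + 1) = 1 := by simp [GR.A]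
          rw [h3]
          exact hasDerivAt_id c
        | succ k ih =>
          rw [Function.iterate_succ']
          have h3 : GR.A n c (k + 1 + 1) = (n : ℂ) * Z n c (k + 1) ^ (n - 1) * GR.A n c (k + 1) := by
            unfold GR.A
            rw [Finset.prod_Ico_succ_top (by omega)]
            ring
          rw [h3]
          have h4 : HasDerivAt (ff n c) ((n : ℂ) * ((ff n c)^[k] c) ^ (n - 1)) ((ff n c)^[k] c) :=
            (hasDerivAt_pow n _).add_const c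
          rw [iter_c n c hn] at h4
          rw [← iter_c n c hn] at h4
          have h5 := h4.comp c ih
          rw [iter_c n c hn] at h5
          exact h5
      have h6 := h2 (p - 1)
      rwa [Nat.sub_add_cancel hp1] at h6
    have h2 : HasDerivAt G (deriv G a) a :=
      ((hGd a (mem_ball_self ht0)).differentiableAt (isOpen_ball.mem_nhds (mem_ball_self ht0))).hasDerivAt
    have h1' : HasDerivAt ((ff n c)^[p - 1]) (GR.A n c p) (G a) := by
      rw [hGa]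
      exact h1
    have h3 := h1'.comp a h2
    have h4 : HasDerivAt ((ff n c)^[p - 1] ∘ G) 1 a := by
      apply (hasDerivAt_id a).congr_of_eventuallyEq
      filter_upwards [isOpen_ball.mem_nhds (mem_ball_self (x := a) ht0)] with w hw
      exact hGinv w hw
    have h5 := h3.unique h4
    rw [← norm_mul, h5, norm_one]
  have hA0 : 0 < ‖GR.A n c p‖ := by
    rcases (norm_nonneg (GR.A n c p)).eq_or_lt with h | h
    · rw [← h, zero_mul] at hgA
      norm_num at hgA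
    · exact h
  have hg0 : 0 < g := by
    by_contra hcon
    have : g = 0 := le_antisymm (not_lt.1 hcon) (norm_nonneg _)
    rw [this, mul_zero] at hgA
    norm_num at hgA
  -- the free annulus at `0`
  have hfree : ∀ j, 1 ≤ j → 2 * C₃ * g * s < ‖Z n c j‖ ^ n → t * g / C₁ ≤ ‖Z n c j‖ ^ n := by
    intro j hj h1
    by_contra h2
    push Not at h2
    have h3 : Z n c (j + 1) ∈ ball c (t * g / C₁) := by
      rw [mem_ball, dist_eq_norm, Z_succ, add_sub_cancel_right, norm_pow]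
      exact h2
    obtain ⟨y, hy, hyw⟩ := hKo1 h3
    have h4 : (ff n c)^[p - 1] (Z n c (j + 1)) = y := by
      rw [← hyw]
      exact hGinv y hy
    rw [iter_Z, show p - 1 + (j + 1) = j + p by omega] at h4
    have hyP : y ∈ closure (Orb n c) := by
      rw [← h4]
      exact horb _ (by omega)
    have h5 : ¬ ‖y - a‖ ≤ 2 * s := by
      intro h6'
      have h7 := hKo3 y (by
        rw [mem_ball, dist_eq_norm]
        linarith)
      rw [hyw, Z_succ, add_sub_cancel_right, norm_pow] at h7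
      have h8 : C₃ * ‖y - a‖ * g ≤ C₃ * (2 * s) * g := by gcongr
      have h9 : C₃ * (2 * s) * g = 2 * C₃ * g * s := by ring
      linarith
    push Not at h5
    have h7 : ‖y - a‖ ≤ ‖y - x‖ + ‖x - a‖ := norm_sub_le_norm_sub_add_norm_sub _ _ _
    rw [norm_sub_rev x a] at h7
    have h8 := hann y hyP (by linarith)
    have h9 : ‖y - x‖ ≤ ‖y - a‖ + ‖a - x‖ := norm_sub_le_norm_sub_add_norm_sub _ _ _
    rw [mem_ball, dist_eq_norm] at hy
    linarith
  -- the closest return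
  have hb0 : 0 < 2 * C₃ * g * s := by positivity
  have hex2 : ∃ j, 1 ≤ j ∧ ‖Z n c j‖ ^ n ≤ 2 * C₃ * g * s := by
    obtain ⟨j, -, hj, hj2⟩ := NINJ_rec n c h0 hrec (min 1 (2 * C₃ * g * s)) (lt_min one_pos hb0) 1
    refine ⟨j, hj, ?_⟩
    have h1 : ‖Z n c j‖ ^ n ≤ ‖Z n c j‖ ^ 1 :=
      pow_le_pow_of_le_one (norm_nonneg _) (hj2.le.trans (min_le_left _ _)) (by omega)
    rw [pow_one] at h1
    exact h1.trans (hj2.le.trans (min_le_right _ _))
  set p' := Nat.find hex2 with hp'def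
  obtain ⟨hp'1, hp'2⟩ := Nat.find_spec hex2
  rw [← hp'def] at hp'1 hp'2
  have htg : t * g / C₁ = K₀ ^ n * (2 * C₃ * g * s) := by
    rw [ht]
    field_simp
  refine ⟨p', ⟨hp'1, ?_⟩, p, hp1, ?_, ?_⟩
  · intro j hj1 hj2
    have h1 := Nat.find_min hex2 hj2
    push Not at h1
    have h2 := hfree j hj1 (h1 hj1)
    rw [htg] at h2
    have h3 : (K₀ * ‖Z n c p'‖) ^ n ≤ ‖Z n c j‖ ^ n := by
      rw [mul_pow]
      exact (mul_le_mul_of_nonneg_left hp'2 (by positivity)).trans h2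
    exact (pow_le_pow_iff_left₀ (by positivity) (norm_nonneg _) (by omega)).1 h3
  · have h1 : ‖Z n c p'‖ ^ n ≤ t * g / C₁ := by
      rw [htg]
      nlinarith
    calc ‖Z n c p'‖ ^ n * (C₁ * ‖GR.A n c p‖) ≤ t * g / C₁ * (C₁ * ‖GR.A n c p‖) := by gcongr
      _ = t * (‖GR.A n c p‖ * g) := by field_simp
      _ = t := by rw [hgA, mul_one]
  · have h1 : ‖Z n c p'‖ ^ n ≤ t * g / C₁ := by
      rw [htg]
      nlinarith
    have h2 : ball c (‖Z n c p'‖ ^ n) ⊆ G '' ball a t := (ball_subset_ball h1).trans hKo1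
    intro w hw w' hw' hww
    obtain ⟨y, hy, rfl⟩ := h2 hw
    obtain ⟨y', hy', rfl⟩ := h2 hw'
    rw [hGinv y hy, hGinv y' hy'] at hww
    rw [hww]

/-- UPC. -/
theorem UPC (hL : LIFT_stmt) (hKO0 : V3.KO0_stmt) (hKO1 : V3.KO1_stmt) (hKO3 : V3.KO3_stmt) :
    ∃ C : ℝ, 1 ≤ C ∧ ∀ (n : ℕ) (c : ℂ) (K₀ : ℝ), 2 ≤ n → (∀ j, 1 ≤ j → Z n c j ≠ 0) →
      (0 : ℂ) ∈ closure (Orb n c) → 1 ≤ K₀ → (CR n c K₀).Finite →
      ∃ s₀ > (0 : ℝ), UPerf (closure (Orb n c)) (C * K₀ ^ n) s₀ := by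
  obtain ⟨C₁, hC₁, hK1⟩ := id hKO1
  obtain ⟨C₃', hC₃', hK3'⟩ := id hKO3 (1 / 2) (by norm_num) (by norm_num)
  set C₃ : ℝ := max C₃' 3 with hC₃def
  have hC₃ : 3 ≤ C₃ := le_max_right _ _
  have hK3 : ∀ (G : ℂ → ℂ) (a : ℂ) (r : ℝ), 0 < r → DifferentiableOn ℂ G (ball a r) →
      InjOn G (ball a r) → ∀ x ∈ ball a ((1 - 1 / 2) * r), ‖G x - G a‖ ≤ C₃ * ‖x - a‖ * ‖deriv G a‖ := by
    intro G a r hr hG hGi x hx
    refine ((hK3' G a r hr hG hGi).2 x hx).2.2.1.trans ?_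
    gcongr
    exact le_max_left _ _
  have hCC : 3 ≤ C₁ * C₃ := by nlinarith
  refine ⟨1 + 2 * C₁ * C₃, by nlinarith, ?_⟩
  intro n c K₀ hn h0 hrec hK₀ hfin
  have hKn : 1 ≤ K₀ ^ n := one_le_pow₀ hK₀
  -- the minimum over the finite set
  obtain ⟨β, hβ, hβ2⟩ : ∃ β > (0 : ℝ), ∀ p ∈ CR n c K₀, β ≤ ‖Z n c p‖ ^ n := by
    have h1 : ∀ F : Finset ℕ, (∀ p ∈ F, 1 ≤ p) → ∃ β > (0 : ℝ), ∀ p ∈ F, β ≤ ‖Z n c p‖ ^ n := by
      intro F
      induction F using Finset.induction_on with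
      | empty => exact fun _ => ⟨1, one_pos, fun p hp => by simp at hp⟩
      | insert q F hq ih =>
        intro hF
        obtain ⟨β, hβ, h2⟩ := ih (fun p hp => hF p (Finset.mem_insert_of_mem hp))
        refine ⟨min β (‖Z n c q‖ ^ n), lt_min hβ (pow_pos (norm_pos_iff.2 (h0 q
          (hF q (Finset.mem_insert_self _ _)))) _), fun p hp => ?_⟩
        rcases Finset.mem_insert.1 hp with rfl | hp
        · exact min_le_right _ _
        · exact (min_le_left _ _).trans (h2 p hp)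
    obtain ⟨β, hβ, h2⟩ := h1 hfin.toFinset (fun p hp => ((hfin.mem_toFinset).1 hp).1)
    exact ⟨β, hβ, fun p hp => h2 p ((hfin.mem_toFinset).2 hp)⟩
  obtain ⟨T, hT⟩ := NINJ hKO0 hKO1 hKO3 n c hn h0 hrec β hβ
  -- lower bound of `A` up to the time `T`
  obtain ⟨α, hα, hα2⟩ : ∃ α > (0 : ℝ), ∀ p, 1 ≤ p → p ≤ T → α ≤ ‖GR.A n c p‖ := by
    have hA0 : ∀ p, 0 < ‖GR.A n c p‖ := by
      intro p
      rw [norm_pos_iff]
      unfold GR.A
      rw [Finset.prod_ne_zero_iff]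
      intro i hi
      have h1 := (Finset.mem_Ico.1 hi).1
      have h2 : (n : ℂ) ≠ 0 := by
        have : n ≠ 0 := by omega
        exact_mod_cast this
      exact mul_ne_zero h2 (pow_ne_zero _ (h0 i h1))
    have h1 : ∀ N : ℕ, ∃ α > (0 : ℝ), ∀ p, 1 ≤ p → p ≤ N → α ≤ ‖GR.A n c p‖ := by
      intro N
      induction N with
      | zero => exact ⟨1, one_pos, fun p h h' => by omega⟩
      | succ N ih =>
        obtain ⟨α, hα, h⟩ := ih
        refine ⟨min α ‖GR.A n c (N + 1)‖, lt_min hα (hA0 _), fun p h1 h2 => ?_⟩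
        rcases Nat.lt_or_ge p (N + 1) with h3 | h3
        · exact (min_le_left _ _).trans (h p h1 (by omega))
        · have h4 : p = N + 1 := by omega
          rw [h4]
          exact min_le_right _ _
    exact h1 T
  set s₀ : ℝ := β * (C₁ * α) / (4 * C₁ * C₃ * K₀ ^ n) with hs₀
  have hs₀0 : 0 < s₀ := by positivity
  refine ⟨s₀, hs₀0, ?_⟩
  intro x hx s hs hss
  by_contra hcon
  push Not at hcon
  obtain ⟨p', hp', p, hp1, hle, hinj⟩ := UPC_step hL C₁ C₃ hC₁ hC₃ hK1 hK3 n c hn h0 hrec K₀ hK₀ x hx s hs (by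
    intro y hy hys
    refine le_trans ?_ (hcon y hy hys)
    apply mul_le_mul_of_nonneg_right _ hs.le
    nlinarith)
  have h1 := hβ2 p' hp'
  have h2 : InjOn ((ff n c)^[p - 1]) (ball c β) := hinj.mono (ball_subset_ball h1)
  have h3 : p ≤ T := by
    by_contra hcon2
    exact hT (p - 1) (by omega) h2
  have h4 := hα2 p hp1 h3
  have h5 : β * (C₁ * α) ≤ 2 * C₁ * C₃ * K₀ ^ n * s :=
    (mul_le_mul h1 (by gcongr) (by positivity) (by positivity)).trans hle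
  have h6 : s * (4 * C₁ * C₃ * K₀ ^ n) ≤ β * (C₁ * α) := by
    rw [← le_div_iff₀ (by positivity)]
    exact hss
  have h7 : 0 < C₁ * C₃ * K₀ ^ n * s := by positivity
  nlinarith

end UP
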